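import Pool.Agent.N205.WT.Stm
import Pool.Agent.N738.WT.Noi
import Pool.Agent.N592.WT.Nd2

/-!
# Project WT: the criterion
-/

set_option autoImplicit false

namespace Pool.Agent.N205.WT

open Polynomial IntermediateField
open Pool.Agent.R80.WF (PP Good)

/-- if `P` is not even then `-x` is not a root -/
theorem neg_ne {P : ℤ[X]} {g : ℕ} (hm : P.Monic) (hd : P.natDegree = 2 * g)
    (hirr : Irreducible (P.map (Int.castRingHom ℚ))) (hne : P.comp (-X) ≠ P) {x : ℂ}
    (hx : aeval x P = 0) : aeval (-x) P ≠ 0 := by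
  intro hx'
  set PQ : ℚ[X] := P.map (Int.castRingHom ℚ) with hPQ
  have hmQ : PQ.Monic := hm.map _
  have hdQ : PQ.natDegree = 2 * g := by rw [hPQ, hm.natDegree_map, hd]
  have hxQ : aeval x PQ = 0 := by
    rw [← hx]
    exact aeval_map_algebraMap ℚ x P
  have hxQ' : aeval (-x) PQ = 0 := by
    rw [← hx']
    exact aeval_map_algebraMap ℚ (-x) P
  have hmin : PQ = minpoly ℚ x := minpoly.eq_of_irreducible_of_monic hirr hxQ hmQ
  have hc : aeval x (PQ.comp (-X)) = 0 := by
    rw [aeval_comp]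
    simpa using hxQ'
  have hdvd : PQ ∣ PQ.comp (-X) := by
    nth_rw 1 [hmin]
    exact minpoly.dvd ℚ x hc
  have hXn : ((-X : ℚ[X])).natDegree = 1 := by rw [natDegree_neg, natDegree_X]
  have hdc : (PQ.comp (-X)).natDegree = 2 * g := by
    rw [natDegree_comp, hXn, hdQ, mul_one]
  have hmc : (PQ.comp (-X)).Monic := by
    rw [Monic, leadingCoeff_comp (by rw [hXn]; norm_num), hmQ.leadingCoeff, one_mul,
      leadingCoeff_neg, leadingCoeff_X, hdQ, pow_mul]
    norm_num
  have heq : PQ.comp (-X) = PQ :=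
    eq_of_monic_of_dvd_of_natDegree_le hmQ hmc hdvd (by rw [hdc, hdQ])
  apply hne
  apply Polynomial.map_injective (Int.castRingHom ℚ) (RingHom.injective_int _)
  rw [Polynomial.map_comp, Polynomial.map_neg, map_X]
  exact heq

/-- the criterion -/
theorem good_of_crit {P : ℤ[X]} {g f : ℕ} (hf : 1 ≤ f) (hfg : f ≤ g) (hm : P.Monic)
    (hd : P.natDegree = 2 * g)
    (h2 : P.map (Int.castRingHom (ZMod 2)) = X ^ (2 * g - f) * (X + 1) ^ f)
    (hirr : Irreducible (P.map (Int.castRingHom ℚ))) (hne : P.comp (-X) ≠ P) {t : ℤ} {q : ℕ}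
    (hq : q.Prime) (hq4 : q % 4 = 3) (hqd : (q : ℤ) ∣ P.eval t) (hqn : ¬ (q : ℤ) ^ 2 ∣ P.eval t)
    (hroot : ∀ x : ℂ, aeval x P = 0 → ‖x‖ = Real.sqrt 2) : Good 2 g f := by
  have hcoef : ∀ k, ((P.coeff k : ℤ) : ZMod 2) =
      if 2 * g - f ≤ k then ((f.choose (k - (2 * g - f)) : ℕ) : ZMod 2) else 0 := by
    intro k
    have h := congrArg (fun p => p.coeff k) h2
    simp only [coeff_map, eq_intCast] at h
    rw [h, coeff_X_pow_mul', coeff_X_add_one_pow]
  refine ⟨P, hm, hd, hirr, hroot, ?_, ?_, ?_⟩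
  · intro i hi
    have h := hcoef i
    rw [if_neg (by omega)] at h
    exact_mod_cast (ZMod.intCast_zmod_eq_zero_iff_dvd (P.coeff i) 2).1 h
  · intro hdv
    have h := hcoef (2 * g - f)
    rw [if_pos le_rfl, Nat.sub_self, Nat.choose_zero_right] at h
    have h0 := (ZMod.intCast_zmod_eq_zero_iff_dvd (P.coeff (2 * g - f)) 2).2 (by exact_mod_cast hdv)
    rw [h0] at h
    exact absurd h (by decide)
  · intro x hx n hn
    exact Pool.Agent.N592.WT.nd2 P (2 * g) f hf (by omega) hm hd h2 hirr x hx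
      (Pool.Agent.N738.WT.noi P (2 * g) (by omega) hm hd hirr t q hq hq4 hqd hqn x hx)
      (neg_ne hm hd hirr hne hx) n hn

end Pool.Agent.N205.WT
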