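import Mathlib
import Pool.Agent.R80.WF.Asm

/-!
# Project WT: absolutely simple abelian varieties over the field with two elements (MP_e32a7e_nt)

Statements of the pieces.
-/

set_option autoImplicit false

namespace Pool.Agent.N205.WT

open Polynomial IntermediateField
open Pool.Agent.R80.WF (PP Good)

/-- WT/1: location of the roots of `PP 2 g a`, when `A(z) = ∑_{i<g} a_i z^i + a_g/2 z^g` has no zero
in the disc of radius `1/√2` -/
def S_ROOT : Prop := ∀ (g : ℕ) (a : ℕ → ℤ), 1 ≤ g → a 0 = 1 →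
  (∀ z : ℂ, ‖z‖ ≤ (Real.sqrt 2)⁻¹ →
    ∑ i ∈ Finset.range g, (a i : ℂ) * z ^ i + (a g : ℂ) / 2 * z ^ g ≠ 0) →
  ∀ x : ℂ, aeval x (PP 2 g a) = 0 → ‖x‖ = Real.sqrt 2

/-- WT/2: irreducibility -/
def S_IRR : Prop := ∀ (P : ℤ[X]) (g : ℕ), 1 ≤ g → P.Monic → P.natDegree = 2 * g →
  P.map (Int.castRingHom (ZMod 3)) = (X ^ 2 - 1) ^ g → ¬ (9 : ℤ) ∣ P.eval 1 →
  (∀ x : ℂ, aeval x P = 0 → ‖x‖ = Real.sqrt 2) → Irreducible (P.map (Int.castRingHom ℚ))

/-- WT/3: no square root of `-1` in the field generated by a root, if some value of the polynomial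
is not a sum of two squares -/
def S_NOI : Prop := ∀ (P : ℤ[X]) (N : ℕ), 1 ≤ N → P.Monic → P.natDegree = N →
  Irreducible (P.map (Int.castRingHom ℚ)) → ∀ (t : ℤ) (q : ℕ), q.Prime → q % 4 = 3 →
  (q : ℤ) ∣ P.eval t → ¬ (q : ℤ) ^ 2 ∣ P.eval t →
  ∀ x : ℂ, aeval x P = 0 → ∀ s ∈ IntermediateField.adjoin ℚ {x}, s ^ 2 ≠ -1

/-- WT/4: no power of a root generates a smaller field -/
def S_ND : Prop := ∀ (P : ℤ[X]) (N f : ℕ), 1 ≤ f → f ≤ N → P.Monic → P.natDegree = N →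
  P.map (Int.castRingHom (ZMod 2)) = X ^ (N - f) * (X + 1) ^ f →
  Irreducible (P.map (Int.castRingHom ℚ)) → ∀ x : ℂ, aeval x P = 0 →
  (∀ s ∈ IntermediateField.adjoin ℚ {x}, s ^ 2 ≠ -1) → aeval (-x) P ≠ 0 →
  ∀ n : ℕ, 1 ≤ n → IntermediateField.adjoin ℚ {x ^ n} = IntermediateField.adjoin ℚ {x}

/-- WT/5: the surfaces `X^4 + X^3 + X^2 + p X + p^2` -/
def S_G2 : Prop := ∀ p : ℕ, p.Prime → Good p 2 2

/-- WT/6: the elliptic curves `X^2 + X + p` -/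
def S_G1 : Prop := ∀ p : ℕ, p.Prime → Good p 1 1

/-- the polynomial `X^g R(X + 2/X)`, where `R = ∑ r_j Y^j` -/
noncomputable def PR (g : ℕ) (r : ℕ → ℤ) : ℤ[X] :=
  ∑ j ∈ Finset.range (g + 1), C (r j) * X ^ (g - j) * (X ^ 2 + 2) ^ j

/-- WT/7: location of the roots of `PR g r`, by sign changes of `R` -/
def S_RROOT : Prop := ∀ (g : ℕ) (r : ℕ → ℤ) (t : ℕ → ℚ), 1 ≤ g → r g = 1 →
  (∀ i ≤ g, t i ^ 2 < 8) → (∀ i < g, t i < t (i + 1)) →
  (∀ i ≤ g, 0 < (-1) ^ (g - i) * ∑ j ∈ Finset.range (g + 1), (r j : ℚ) * t i ^ j) →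
  ∀ x : ℂ, aeval x (PR g r) = 0 → ‖x‖ = Real.sqrt 2 ∧ x.im ≠ 0

/-- WT/8: irreducibility of `PR g r` -/
def S_RIRR : Prop := ∀ (g : ℕ) (r : ℕ → ℤ), 1 ≤ g → r g = 1 →
  (∀ x : ℂ, aeval x (PR g r) = 0 → ‖x‖ = Real.sqrt 2 ∧ x.im ≠ 0) →
  Irreducible ((∑ j ∈ Finset.range (g + 1), C (r j) * X ^ j : ℤ[X]).map (Int.castRingHom ℚ)) →
  Irreducible ((PR g r).map (Int.castRingHom ℚ))

/-- remainder of the division by `X^3 + u X^2 + v X + w` (coefficients of the dividend: highest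
first), as the triple of the coefficients of `X^2, X, 1` -/
def hor3 (u v w : ZMod 3) : List (ZMod 3) → ZMod 3 × ZMod 3 × ZMod 3 →
    ZMod 3 × ZMod 3 × ZMod 3
  | [], s => s
  | c :: l, (x, y, z) => hor3 u v w l (y - x * u, z - x * v, c - x * w)

/-- remainder of the division by `X^2 + u X + v` -/
def hor2 (u v : ZMod 3) : List (ZMod 3) → ZMod 3 × ZMod 3 → ZMod 3 × ZMod 3
  | [], s => s
  | c :: l, (x, y) => hor2 u v l (y - x * u, c - x * v)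

/-- value at `u` -/
def hor1 (u : ZMod 3) : List (ZMod 3) → ZMod 3 → ZMod 3
  | [], s => s
  | c :: l, x => hor1 u l (c + x * u)

/-- no divisor of degree `1 ≤ d ≤ g / 2` modulo 3, for `g ≤ 7` (coefficients: highest first) -/
def noDiv (g : ℕ) (l : List (ZMod 3)) : Prop :=
  (∀ u : ZMod 3, hor1 u l 0 ≠ 0) ∧ (4 ≤ g → ∀ u v : ZMod 3, hor2 u v l (0, 0) ≠ (0, 0)) ∧
    (6 ≤ g → ∀ u v w : ZMod 3, hor3 u v w l (0, 0, 0) ≠ (0, 0, 0))

/-- WT/9: irreducibility modulo 3, in degree `2` to `7` -/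
def S_MOD3 : Prop := ∀ (g : ℕ) (r : ℕ → ℤ), 2 ≤ g → g ≤ 7 → r g = 1 →
  noDiv g ((List.range (g + 1)).map fun i => ((r (g - i) : ℤ) : ZMod 3)) →
  Irreducible ((∑ j ∈ Finset.range (g + 1), C (r j) * X ^ j : ℤ[X]).map (Int.castRingHom ℚ))

/-- sum of two lists -/
def addL : List ℤ → List ℤ → List ℤ
  | [], m => m
  | l, [] => l
  | a :: l, b :: m => (a + b) :: addL l m

/-- product of two lists (as polynomials) -/
def mulL : List ℤ → List ℤ → List ℤ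
  | [], _ => []
  | a :: l, m => addL (m.map (a * ·)) (0 :: mulL l m)

/-- value of the polynomial with the given list of coefficients -/
noncomputable def evL (z : ℂ) : List ℤ → ℂ
  | [] => 0
  | a :: l => a + z * evL z l

/-- weights: `10000 * 2^40 / √2^i ≤ wt i` -/
def wt (i : ℕ) : ℕ := (if i % 2 = 0 then 10000 else 7072) * 2 ^ (40 - i / 2)

/-- weighted norm -/
def nrm : ℕ → List ℤ → ℕ
  | _, [] => 0
  | i, a :: l => a.natAbs * wt i + nrm (i + 1) l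

/-- the certificate -/
def cert (A B : List ℤ) (D : ℕ) : Prop :=
  10000 * nrm 0 (addL (mulL A B) [-(D : ℤ)]) + 401 * nrm 0 B < 10000 * (D * wt 0)

/-- WT/10: a polynomial with a certificate is larger than `401/10000` on the disc -/
def S_CERT : Prop := ∀ (A B : List ℤ) (D : ℕ), cert A B D → ∀ z : ℂ, ‖z‖ ≤ (Real.sqrt 2)⁻¹ →
  401 / 10000 < ‖evL z A‖

/-- WT/11: binomial coefficients modulo 2 and 3 -/
def S_CH : Prop := (∀ f i : ℕ, i < 16 → f.choose i % 2 = (f % 16).choose i % 2) ∧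
  (∀ g j : ℕ, j < 9 → g.choose j % 3 = (g % 9).choose j % 3)

end Pool.Agent.N205.WT
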