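import Pool.Agent.N205.WT.Cert
import Pool.Agent.N205.WT.Core
import Pool.Agent.N868.WT1
import Pool.Agent.N342.WT.Irr
import Pool.Agent.N92.WT.Irr

/-!
# Project WT: dimension at least 16
-/

set_option autoImplicit false

namespace Pool.Agent.N205.WT

open Polynomial IntermediateField
open Pool.Agent.R80.WF (PP Good coeff_PP natDegree_PP monic_PP)

/-- representative in `[-2, 3]` of the class modulo 6 -/
def cls (f g i : ℕ) : ℤ := (3 * (f.choose i : ℕ) - 2 * e3 g i + 2) % 6 - 2

lemma cls_two (f g i : ℕ) : (cls f g i - (f.choose i : ℕ)) % 2 = 0 := by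
  unfold cls; omega

lemma cls_three (f g i : ℕ) : (cls f g i - e3 g i) % 3 = 0 := by
  unfold cls; omega

lemma cls_le (f g i : ℕ) : -2 ≤ cls f g i ∧ cls f g i ≤ 3 := by
  unfold cls; omega

/-- the entry -/
def lst (f g : ℕ) : List ℤ := (ent (f % 16) (g % 9)).A

/-- the coefficients below `g` -/
def ab (f g i : ℕ) : ℤ := if i < 16 then (lst f g).getD i 0 else cls f g i

/-- the value at `1` of the part below `g` -/
def s0 (f g : ℕ) : ℤ := ∑ i ∈ Finset.range g, ab f g i * (1 + 2 ^ (g - i))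

/-- the coefficients -/
def aa (f g i : ℕ) : ℤ := if i = g then
    (if (9 : ℤ) ∣ s0 f g + cls f g g then cls f g g - 6 else cls f g g) else ab f g i

lemma okl (f g : ℕ) : Ok (f % 16) (g % 9) (lst f g) :=
  ok_ent (Nat.mod_lt _ (by norm_num)) (Nat.mod_lt _ (by norm_num))

lemma e3_mod (g i : ℕ) (hi : i < 16) : (e3 (g % 9) i - e3 g i) % 3 = 0 := by
  unfold e3
  split_ifs with h
  · have h1 := Pool.Agent.N92.WT.ch.2 g (i / 2) (by omega)
    have h2 : ((g.choose (i / 2) : ℕ) : ℤ) % 3 = (((g % 9).choose (i / 2) : ℕ) : ℤ) % 3 := by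
      exact_mod_cast h1
    push_cast
    have h3 : (3 : ℤ) ∣ (((g % 9).choose (i / 2) : ℕ) : ℤ) - ((g.choose (i / 2) : ℕ) : ℤ) := by
      omega
    have h4 := Dvd.dvd.mul_right h3 ((2 : ℤ) ^ (i / 2))
    rw [sub_mul] at h4
    exact Int.emod_eq_zero_of_dvd h4
  · rfl

lemma ab_two (f g i : ℕ) : (ab f g i - (f.choose i : ℕ)) % 2 = 0 := by
  unfold ab
  split_ifs with h
  · have h1 := (okl f g).two i h
    have h2 := Pool.Agent.N92.WT.ch.1 f i h
    have h3 : ((f.choose i : ℕ) : ℤ) % 2 = (((f % 16).choose i : ℕ) : ℤ) % 2 := by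
      exact_mod_cast h2
    omega
  · exact cls_two f g i

lemma ab_three (f g i : ℕ) : (ab f g i - e3 g i) % 3 = 0 := by
  unfold ab
  split_ifs with h
  · have h1 := (okl f g).three i h
    have h2 := e3_mod g i h
    omega
  · exact cls_three f g i

lemma aa_two (f g i : ℕ) : (aa f g i - (f.choose i : ℕ)) % 2 = 0 := by
  unfold aa
  split_ifs with h1 h2
  · subst h1
    have := cls_two f i i
    omega
  · subst h1
    exact cls_two f i i
  · exact ab_two f g i

lemma aa_three (f g i : ℕ) : (aa f g i - e3 g i) % 3 = 0 := by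
  unfold aa
  split_ifs with h1 h2
  · subst h1
    have := cls_three f i i
    omega
  · subst h1
    exact cls_three f i i
  · exact ab_three f g i

lemma aa_zero (f g : ℕ) (hg : 16 ≤ g) : aa f g 0 = 1 := by
  unfold aa ab
  rw [if_neg (by omega), if_pos (by norm_num)]
  exact (okl f g).zero

lemma sum_aa {M : Type*} [AddCommMonoid M] (f g : ℕ) (F : ℕ → ℤ → M) :
    ∑ i ∈ Finset.range g, F i (aa f g i) = ∑ i ∈ Finset.range g, F i (ab f g i) := by
  refine Finset.sum_congr rfl fun i hi => ?_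
  have := Finset.mem_range.1 hi
  rw [aa, if_neg (by omega)]

lemma eval_one (f g : ℕ) : (PP 2 g (aa f g)).eval 1 = s0 f g + aa f g g := by
  unfold PP
  rw [eval_add, eval_finsetSum, eval_mul, eval_C, eval_pow, eval_X, one_pow, mul_one]
  congr 1
  rw [s0, ← sum_aa f g (fun i c => c * (1 + 2 ^ (g - i)))]
  refine Finset.sum_congr rfl fun i _ => ?_
  simp

lemma not_nine (f g : ℕ) : ¬ (9 : ℤ) ∣ (PP 2 g (aa f g)).eval 1 := by
  rw [eval_one]
  unfold aa
  rw [if_pos rfl]
  split_ifs with h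
  · omega
  · exact h

/-- reduction modulo 2 -/
lemma map_two {f g : ℕ} (hg : 16 ≤ g) (hfg : f ≤ g) :
    (PP 2 g (aa f g)).map (Int.castRingHom (ZMod 2)) = X ^ (2 * g - f) * (X + 1) ^ f := by
  ext k
  have hc : ∀ i, ((aa f g i : ℤ) : ZMod 2) = ((f.choose i : ℕ) : ZMod 2) := by
    intro i
    have h := Int.dvd_of_emod_eq_zero (aa_two f g i)
    have h1 := (ZMod.intCast_zmod_eq_zero_iff_dvd (aa f g i - (f.choose i : ℕ)) 2).2
      (by exact_mod_cast h)
    push_cast at h1
    exact sub_eq_zero.1 h1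
  rw [coeff_map, coeff_X_pow_mul', coeff_X_add_one_pow, coeff_PP, eq_intCast]
  rcases lt_trichotomy k g with h | h | h
  · rw [if_pos h, if_neg (by omega)]
    have : ((((2 : ℕ) : ℤ) ^ (g - k) * aa f g k : ℤ) : ZMod 2) = 0 := by
      rw [ZMod.intCast_zmod_eq_zero_iff_dvd]
      exact Dvd.dvd.mul_right (dvd_pow_self _ (by omega)) _
    exact this
  · subst h
    rw [if_neg (by omega), if_pos rfl, hc]
    by_cases h1 : f = k
    · subst h1
      rw [if_pos (by omega)]
      have : f - (2 * f - f) = 0 := by omega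
      rw [this]
      simp
    · rw [if_neg (by omega), Nat.choose_eq_zero_of_lt (by omega)]
      simp
  · rw [if_neg (by omega), if_neg (by omega)]
    by_cases h2 : k ≤ 2 * g
    · rw [if_pos h2, hc]
      by_cases h3 : 2 * g - f ≤ k
      · rw [if_pos h3]
        have : f - (2 * g - k) = k - (2 * g - f) := by omega
        rw [← this, Nat.choose_symm (by omega)]
      · rw [if_neg h3, Nat.choose_eq_zero_of_lt (by omega)]
        simp
    · rw [if_neg h2, if_pos (by omega), Nat.choose_eq_zero_of_lt (by omega)]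
      simp

/-- reduction modulo 3 -/
lemma map_three {f g : ℕ} (hg : 16 ≤ g) :
    (PP 2 g (aa f g)).map (Int.castRingHom (ZMod 3)) = (X ^ 2 - 1) ^ g := by
  have hX : ((X : (ZMod 3)[X]) ^ 2 - 1) ^ g = expand (ZMod 3) 2 ((X + C 2) ^ g) := by
    rw [map_pow]
    congr 1
    rw [map_add, expand_X, expand_C, sub_eq_add_neg]
    congr 1
    have h2 : (C (2 : ZMod 3)) = -C (1 : ZMod 3) := by
      rw [← C_neg]
      congr 1
    rw [h2, C_1]
  rw [hX]
  ext k
  have hc : ∀ i, ((aa f g i : ℤ) : ZMod 3) = ((e3 g i : ℤ) : ZMod 3) := by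
    intro i
    have h := Int.dvd_of_emod_eq_zero (aa_three f g i)
    have h1 := (ZMod.intCast_zmod_eq_zero_iff_dvd (aa f g i - e3 g i) 3).2
      (by exact_mod_cast h)
    push_cast at h1
    exact sub_eq_zero.1 h1
  rw [coeff_map, coeff_expand (by norm_num), coeff_X_add_C_pow, coeff_PP, eq_intCast]
  rcases lt_trichotomy k g with h | h | h
  · rw [if_pos h]
    push_cast
    rw [hc, e3]
    by_cases h2 : 2 ∣ k
    · rw [if_pos (by omega), if_pos h2]
      push_cast
      have h3 : g - k / 2 = (g - k) + k / 2 := by omega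
      rw [h3, pow_add]
      ring
    · rw [if_neg (by omega), if_neg h2]
      simp
  · subst h
    rw [if_neg (by omega), if_pos rfl, hc, e3]
    by_cases h2 : 2 ∣ k
    · rw [if_pos (by omega), if_pos h2]
      push_cast
      have h3 : k - k / 2 = k / 2 := by omega
      rw [h3]
      ring
    · rw [if_neg (by omega), if_neg h2]
      simp
  · rw [if_neg (by omega), if_neg (by omega)]
    by_cases h1 : k ≤ 2 * g
    · rw [if_pos h1, hc, e3]
      by_cases h2 : 2 ∣ k
      · rw [if_pos (by omega), if_pos h2]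
        push_cast
        have h3 : (2 * g - k) / 2 = g - k / 2 := by omega
        rw [h3, Nat.choose_symm (by omega)]
        ring
      · rw [if_neg (by omega), if_neg h2]
        simp
    · rw [if_neg h1]
      split_ifs with h2
      · rw [Nat.choose_eq_zero_of_lt (by omega)]
        simp
      · simp

lemma rho_pos : (0 : ℝ) < (Real.sqrt 2)⁻¹ := by positivity

lemma rho_bd : (Real.sqrt 2)⁻¹ ≤ 70711 / 100000 := by
  have h : (100000 / 70711 : ℝ) ≤ Real.sqrt 2 := by
    apply Real.le_sqrt_of_sq_le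
    norm_num
  have h2 := inv_anti₀ (by norm_num) h
  refine h2.trans ?_
  norm_num

/-- the sum of the tail -/
lemma tail_bd (g : ℕ) (hg : 16 ≤ g) : ∑ i ∈ Finset.Ico 16 g, 3 * ((Real.sqrt 2)⁻¹) ^ i +
    1025 / 100 * ((Real.sqrt 2)⁻¹) ^ g ≤ 4004 / 100000 := by
  induction g, hg using Nat.le_induction with
  | base =>
    rw [Finset.Ico_self, Finset.sum_empty, zero_add]
    have h1 : ((Real.sqrt 2)⁻¹ : ℝ) ^ 16 = 1 / 256 := by
      have : ((Real.sqrt 2)⁻¹ : ℝ) ^ 16 = (((Real.sqrt 2)⁻¹) ^ 2) ^ 8 := by ring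
      rw [this, Pool.Agent.N547.WT.rho_sq]
      norm_num
    rw [h1]
    norm_num
  | succ g hg ih =>
    rw [Finset.sum_Ico_succ_top hg, pow_succ]
    have h1 := rho_bd
    have h2 : (0 : ℝ) < ((Real.sqrt 2)⁻¹) ^ g := by positivity
    nlinarith

lemma evL_eq (z : ℂ) : ∀ l : List ℤ, evL z l =
    ∑ i ∈ Finset.range l.length, ((l.getD i 0 : ℤ) : ℂ) * z ^ i
  | [] => by simp [evL]
  | a :: l => by
    rw [evL, evL_eq z l, List.length_cons, Finset.sum_range_succ', Finset.mul_sum]
    simp only [List.getD_cons_succ, List.getD_cons_zero, pow_zero, mul_one]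
    rw [add_comm]
    congr 1
    refine Finset.sum_congr rfl fun i _ => ?_
    ring

/-- no zero in the disc -/
lemma no_zero {f g : ℕ} (hg : 16 ≤ g) (z : ℂ) (hz : ‖z‖ ≤ (Real.sqrt 2)⁻¹) :
    ∑ i ∈ Finset.range g, (aa f g i : ℂ) * z ^ i + (aa f g g : ℂ) / 2 * z ^ g ≠ 0 := by
  intro h0
  have hlow := (okl f g).low z hz
  have hlen := (okl f g).len
  have h1 : ∑ i ∈ Finset.range g, (aa f g i : ℂ) * z ^ i = evL z (lst f g) +
      ∑ i ∈ Finset.Ico 16 g, (cls f g i : ℂ) * z ^ i := by
    have hA : ∑ i ∈ Finset.range 16, (ab f g i : ℂ) * z ^ i = evL z (lst f g) := by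
      rw [evL_eq, hlen]
      refine Finset.sum_congr rfl fun i hi => ?_
      rw [ab, if_pos (Finset.mem_range.1 hi)]
    have hB : ∑ i ∈ Finset.Ico 16 g, (ab f g i : ℂ) * z ^ i =
        ∑ i ∈ Finset.Ico 16 g, (cls f g i : ℂ) * z ^ i := by
      refine Finset.sum_congr rfl fun i hi => ?_
      have := (Finset.mem_Ico.1 hi).1
      rw [ab, if_neg (by omega)]
    rw [sum_aa f g (fun i c => (c : ℂ) * z ^ i), ← Finset.sum_range_add_sum_Ico _ hg, hA, hB]
  rw [h1] at h0
  have h2 : evL z (lst f g) = -(∑ i ∈ Finset.Ico 16 g, (cls f g i : ℂ) * z ^ i +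
      (aa f g g : ℂ) / 2 * z ^ g) := by
    linear_combination h0
  have h3 : ‖evL z (lst f g)‖ ≤ ∑ i ∈ Finset.Ico 16 g, 3 * ((Real.sqrt 2)⁻¹) ^ i +
      1025 / 100 * ((Real.sqrt 2)⁻¹) ^ g := by
    rw [h2, norm_neg]
    refine (norm_add_le _ _).trans (add_le_add ((norm_sum_le _ _).trans
      (Finset.sum_le_sum fun i _ => ?_)) ?_)
    · rw [norm_mul, norm_pow, Complex.norm_intCast]
      have h4 : |((cls f g i : ℤ) : ℝ)| ≤ 3 := by
        rw [abs_le]
        have h5 := cls_le f g i
        constructor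
        · have : (-2 : ℝ) ≤ (cls f g i : ℝ) := by exact_mod_cast h5.1
          linarith
        · exact_mod_cast h5.2
      gcongr
    · rw [norm_mul, norm_pow, norm_div, Complex.norm_intCast]
      have h4 : |((aa f g g : ℤ) : ℝ)| ≤ 8 := by
        have h5 := cls_le f g g
        have h6 : -8 ≤ aa f g g ∧ aa f g g ≤ 8 := by
          unfold aa
          rw [if_pos rfl]
          split_ifs <;> omega
        rw [abs_le]
        constructor
        · exact_mod_cast h6.1
        · exact_mod_cast h6.2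
      have h7 : |((aa f g g : ℤ) : ℝ)| / ‖(2 : ℂ)‖ ≤ 1025 / 100 := by
        rw [Complex.norm_ofNat]
        linarith
      gcongr
  linarith [tail_bd g hg]

/-- the polynomial is not even -/
lemma not_even {f g : ℕ} (hg : 16 ≤ g) : (PP 2 g (aa f g)).comp (-X) ≠ PP 2 g (aa f g) := by
  intro h
  obtain ⟨i, hi, hi2, hi0⟩ := (okl f g).odd
  have h1 := congrArg (fun p => p.coeff (2 * g - i)) h
  have hX : (-X : ℤ[X]) = C (-1) * X := by simp
  simp only [hX, comp_C_mul_X_coeff] at h1
  rw [Odd.neg_one_pow (Nat.odd_iff.2 (by omega)), coeff_PP, if_neg (by omega), if_neg (by omega),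
    if_pos (by omega)] at h1
  have h2 : 2 * g - (2 * g - i) = i := by omega
  rw [h2] at h1
  have h3 : aa f g i = (lst f g).getD i 0 := by
    rw [aa, if_neg (by omega), ab, if_pos hi]
  rw [h3] at h1
  omega

theorem big {g f : ℕ} (hg : 16 ≤ g) (hf : 1 ≤ f) (hfg : f ≤ g) : Good 2 g f := by
  have ha0 := aa_zero f g hg
  have hm : (PP 2 g (aa f g)).Monic := monic_PP (by omega) ha0
  have hd : (PP 2 g (aa f g)).natDegree = 2 * g := natDegree_PP (by omega) ha0
  have hroot := Pool.Agent.N868.WT1.root g (aa f g) (by omega) ha0 (no_zero hg)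
  have h3 := map_three (f := f) hg
  have h9 := not_nine f g
  have hirr := Pool.Agent.N342.WT2.irr _ g (by omega) hm hd h3 h9 hroot
  refine good_of_crit hf hfg hm hd (map_two hg hfg) hirr (not_even hg) (t := 1) (q := 3)
    (by norm_num) (by norm_num) ?_ ?_ hroot
  · have h4 := congrArg (fun p => p.eval 1) h3
    simp only [eval_pow, eval_sub, eval_X, Polynomial.eval_one, one_pow, sub_self] at h4
    rw [zero_pow (by omega)] at h4
    have h5 : (((PP 2 g (aa f g)).eval 1 : ℤ) : ZMod 3) = 0 := by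
      rw [← h4, ← eq_intCast (Int.castRingHom (ZMod 3)), ← eval_map_apply]
      simp
    exact_mod_cast (ZMod.intCast_zmod_eq_zero_iff_dvd _ 3).1 h5
  · norm_num
    exact h9

end Pool.Agent.N205.WT
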