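import Pool.Agent.N205.WT.Tab
import Pool.Agent.N547.WT.Cert

/-!
# Project WT: soundness of the certificate (after helper547, with more precise weights)
-/

set_option autoImplicit false

namespace Pool.Agent.N205.WT

open Pool.Agent.N547.WT (evL_addL evL_smul evL_mulL rho_sq rho_le)

lemma two_pow_le (k : ℕ) : (2 : ℝ) ^ 120 * ((2 : ℝ)⁻¹) ^ k ≤ 2 ^ (120 - k) := by
  rw [inv_pow, ← div_eq_mul_inv, div_le_iff₀ (by positivity), ← pow_add]
  exact pow_le_pow_right₀ (by norm_num) (by omega)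

lemma wu_ge (i : ℕ) : 10000 * 2 ^ 120 * ((Real.sqrt 2)⁻¹) ^ i ≤ (wu i : ℝ) := by
  rcases Nat.even_or_odd' i with ⟨k, rfl | rfl⟩
  · rw [pow_mul, rho_sq]
    have h1 : wu (2 * k) = 10000 * 2 ^ (120 - k) := by
      unfold wu
      rw [if_pos (by omega)]
      congr 3
      omega
    rw [h1]
    push_cast
    have := two_pow_le k
    nlinarith
  · rw [pow_succ (Real.sqrt 2)⁻¹, pow_mul, rho_sq]
    have h1 : wu (2 * k + 1) = 7072 * 2 ^ (120 - k) := by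
      unfold wu
      rw [if_neg (by omega)]
      congr 3
      omega
    rw [h1]
    push_cast
    have h2 := two_pow_le k
    have h3 := rho_le
    have h4 : (0 : ℝ) ≤ (Real.sqrt 2)⁻¹ := by positivity
    have h5 : (0 : ℝ) ≤ (2 : ℝ) ^ 120 * ((2 : ℝ)⁻¹) ^ k := by positivity
    calc (10000 : ℝ) * 2 ^ 120 * (((2 : ℝ)⁻¹) ^ k * (Real.sqrt 2)⁻¹)
        = (2 ^ 120 * ((2 : ℝ)⁻¹) ^ k) * (10000 * (Real.sqrt 2)⁻¹) := by ring
      _ ≤ 2 ^ (120 - k) * 7072 := by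
        apply mul_le_mul h2 (by linarith) (by positivity) (by positivity)
      _ = _ := by ring

lemma nru_ge (z : ℂ) (hz : ‖z‖ ≤ (Real.sqrt 2)⁻¹) : ∀ (l : List ℤ) (i : ℕ),
    10000 * 2 ^ 120 * ((Real.sqrt 2)⁻¹) ^ i * ‖evL z l‖ ≤ (nru i l : ℝ)
  | [], i => by simp [evL, nru]
  | a :: l, i => by
    have h1 := nru_ge z hz l (i + 1)
    have h2 := wu_ge i
    simp only [evL, nru]
    push_cast
    have h3 : ‖(a : ℂ) + z * evL z l‖ ≤ |(a : ℝ)| + (Real.sqrt 2)⁻¹ * ‖evL z l‖ := by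
      refine (norm_add_le _ _).trans ?_
      rw [Complex.norm_intCast, norm_mul]
      gcongr
    have h4 : ((a.natAbs : ℕ) : ℝ) = |(a : ℝ)| := by
      rw [Nat.cast_natAbs, Int.cast_abs]
    rw [h4]
    have h5 : (0 : ℝ) ≤ ((Real.sqrt 2)⁻¹) ^ i := by positivity
    calc 10000 * 2 ^ 120 * ((Real.sqrt 2)⁻¹) ^ i * ‖(a : ℂ) + z * evL z l‖
        ≤ 10000 * 2 ^ 120 * ((Real.sqrt 2)⁻¹) ^ i * (|(a : ℝ)| + (Real.sqrt 2)⁻¹ * ‖evL z l‖) := by
          gcongr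
      _ = |(a : ℝ)| * (10000 * 2 ^ 120 * ((Real.sqrt 2)⁻¹) ^ i) +
          10000 * 2 ^ 120 * ((Real.sqrt 2)⁻¹) ^ (i + 1) * ‖evL z l‖ := by ring
      _ ≤ _ := by
          gcongr

theorem of_ceru {A B : List ℤ} {D : ℕ} (h : ceru A B D = true) {z : ℂ}
    (hz : ‖z‖ ≤ (Real.sqrt 2)⁻¹) : 401 / 10000 < ‖evL z A‖ := by
  unfold ceru at h
  replace h := of_decide_eq_true h
  have h1 := nru_ge z hz (addL (mulL A B) [-(D : ℤ)]) 0
  have h2 := nru_ge z hz B 0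
  have hE : evL z (addL (mulL A B) [-(D : ℤ)]) = evL z A * evL z B - D := by
    rw [evL_addL, evL_mulL]
    simp [evL]
    ring
  rw [hE] at h1
  have h3 : (10000 * (nru 0 (addL (mulL A B) [-(D : ℤ)]) : ℝ) + 401 * (nru 0 B : ℝ)) <
      10000 * ((D : ℝ) * (wu 0 : ℝ)) := by
    exact_mod_cast h
  have h4 : (wu 0 : ℝ) = 10000 * 2 ^ 120 := by
    have : wu 0 = 10000 * 2 ^ 120 := by decide +kernel
    rw [this]; push_cast; norm_num
  rw [h4] at h3
  rw [pow_zero, mul_one] at h1 h2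
  have h5 : 10000 * ‖evL z A * evL z B - D‖ + 401 * ‖evL z B‖ < 10000 * (D : ℝ) := by
    by_contra hc
    push Not at hc
    nlinarith
  have h6 : (D : ℝ) ≤ ‖evL z A‖ * ‖evL z B‖ + ‖evL z A * evL z B - D‖ := by
    have e : ((D : ℕ) : ℂ) = evL z A * evL z B - (evL z A * evL z B - D) := by ring
    have h7 : ‖((D : ℕ) : ℂ)‖ = (D : ℝ) := by simp
    rw [← h7]
    conv_lhs => rw [e]
    refine (norm_sub_le _ _).trans ?_
    rw [norm_mul]
  have h8 : 0 ≤ ‖evL z B‖ := norm_nonneg _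
  by_contra hc
  push Not at hc
  have h9 : ‖evL z A‖ * ‖evL z B‖ ≤ 401 / 10000 * ‖evL z B‖ := by gcongr
  linarith

/-- what an entry gives -/
structure Ok (f g : ℕ) (A : List ℤ) : Prop where
  len : A.length = 16
  zero : A.getD 0 0 = 1
  two : ∀ i < 16, (A.getD i 0 - (f.choose i : ℕ)) % 2 = 0
  three : ∀ i < 16, (A.getD i 0 - e3 g i) % 3 = 0
  odd : ∃ i < 16, i % 2 = 1 ∧ A.getD i 0 ≠ 0
  low : ∀ z : ℂ, ‖z‖ ≤ (Real.sqrt 2)⁻¹ → 4004 / 100000 < ‖evL z A‖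

theorem ok_of_chk {f g : ℕ} {e : Ent} (h : chk f g e = true) : Ok f g e.A := by
  unfold chk at h
  simp only [Bool.and_eq_true, decide_eq_true_eq, List.all_eq_true, List.any_eq_true,
    List.mem_range] at h
  obtain ⟨⟨⟨⟨h1, h2⟩, h3⟩, i, hi, h4⟩, h5⟩ := h
  refine ⟨h1, h2, fun i hi => (h3 i hi).1, fun i hi => (h3 i hi).2,
    ⟨2 * i + 1, by omega, by omega, h4⟩, ?_⟩
  intro z hz
  by_cases hs : e.sq = true
  · rw [if_pos hs] at h5
    have h6 := of_ceru h5 hz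
    rw [evL_smul, evL_mulL, norm_mul, norm_mul] at h6
    have h7 : ‖((25 : ℤ) : ℂ)‖ = 25 := by
      rw [Complex.norm_intCast]
      norm_num
    rw [h7] at h6
    by_contra hc
    push Not at hc
    have h8 : ‖evL z e.A‖ * ‖evL z e.A‖ ≤ 4004 / 100000 * (4004 / 100000) := by
      gcongr
    norm_num at h8
    linarith
  · rw [if_neg hs] at h5
    have h6 := of_ceru h5 hz
    norm_num at h6 ⊢
    linarith

theorem ok_ent {f g : ℕ} (hf : f < 16) (hg : g < 9) : Ok f g (ent f g).A := by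
  apply ok_of_chk
  have h := allchk_true
  unfold allchk at h
  simp only [List.all_eq_true, List.mem_range] at h
  exact h f hf g hg

end Pool.Agent.N205.WT
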