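import Pool.Agent.N205.WT.Small

/-!
# Project WT: the certificates for dimension 3 to 15
-/

set_option autoImplicit false

namespace Pool.Agent.N205.WT

open Pool.Agent.R80.WF (Good)

/-- dimension 3 -/
def sm3 : List Sm := [
  ⟨[8, -5, -2, 1], [(-5, 2), (0, 1), (2, 1), (14, 5)], -1, 11, 1, true, 0, []⟩,
  ⟨[-1, -5, 1, 1], [(-11, 4), (-1, 1), (1, 1), (2, 1)], 4, 19, 1, true, 0, []⟩]

/-- dimension 4 -/
def sm4 : List Sm := [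
  ⟨[2, 8, -5, -2, 1], [(-5, 2), (-1, 1), (1, 1), (2, 1), (8, 3)], -3, 1871, 1, true, 0, []⟩,
  ⟨[2, 7, -7, -1, 1], [(-8, 3), (-1, 1), (1, 1), (2, 1), (8, 3)], 1, 7, 1, true, 0, []⟩,
  ⟨[-1, 8, -4, -2, 1], [(-5, 2), (-1, 1), (1, 1), (2, 1), (5, 2)], 1, 7, 1, true, 0, []⟩]

/-- dimension 5 -/
def sm5 : List Sm := [
  ⟨[-4, 12, 10, -7, -2, 1], [(-5, 2), (-2, 1), (0, 1), (1, 1), (5, 2), (8, 3)], 1, 7, 1, true, 0,
    []⟩,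
  ⟨[-16, 28, 9, -11, -1, 1], [(-8, 3), (-2, 1), (-1, 1), (1, 1), (5, 2), (11, 4)], 1, 7, 1, true,
    0, []⟩,
  ⟨[4, 13, 0, -8, 0, 1], [(-5, 2), (-2, 1), (-1, 1), (1, 1), (2, 1), (5, 2)], 1, 7, 1, true, 0, []⟩,
  ⟨[-13, 3, 14, -4, -3, 1], [(-2, 1), (-3, 2), (0, 1), (2, 1), (5, 2), (8, 3)], 1, 7, 1, true, 0,
    []⟩]

/-- dimension 6 -/
def sm6 : List Sm := [
  ⟨[-14, -16, 22, 14, -9, -2, 1], [(-5, 2), (-2, 1), (-1, 1), (0, 1), (2, 1), (5, 2), (8, 3)], 1,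
    7, 1, true, 0, []⟩,
  ⟨[-12, -48, 18, 27, -9, -3, 1], [(-8, 3), (-2, 1), (-1, 1), (1, 1), (2, 1), (8, 3), (113, 40)],
    1, 3, 1, false, 0, [-12, -48, 18, 27, -9, -3, 1]⟩,
  ⟨[-2, -6, 7, 10, -6, -2, 1], [(-5, 2), (-1, 1), (-1, 2), (0, 1), (1, 1), (2, 1), (8, 3)], 1, 7,
    1, true, 0, []⟩,
  ⟨[-2, -7, 15, 6, -8, -1, 1], [(-5, 2), (-2, 1), (-1, 1), (0, 1), (1, 1), (2, 1), (5, 2)], 1, 7,
    1, true, 0, []⟩,
  ⟨[-5, 8, 21, -2, -9, 0, 1], [(-5, 2), (-2, 1), (-1, 1), (0, 1), (1, 1), (2, 1), (5, 2)], 1, 7,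
    1, true, 0, []⟩]

/-- dimension 7 -/
def sm7 : List Sm := [
  ⟨[-6, -72, 0, 66, 0, -15, 0, 1], [(-8, 3), (-13, 5), (-2, 1), (-1, 1), (1, 1), (2, 1), (5, 2),
    (14, 5)], 1, 3, 1, false, 0, [-6, -72, 0, 66, 0, -15, 0, 1]⟩,
  ⟨[-42, -24, 66, 24, -27, -9, 3, 1], [(-181, 64), (-5, 2), (-2, 1), (-1, 1), (0, 1), (4, 3), (2,
    1), (5, 2)], 1, 3, 1, false, 0, [-42, -24, 66, 24, -27, -9, 3, 1]⟩,
  ⟨[6, -30, 0, 39, 0, -12, 0, 1], [(-11, 4), (-2, 1), (-3, 2), (-1, 1), (1, 2), (1, 1), (5, 2),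
    (8, 3)], 1, 3, 1, false, 0, [6, -30, 0, 39, 0, -12, 0, 1]⟩,
  ⟨[22, -138, -39, 83, 12, -16, -1, 1], [(-8, 3), (-5, 2), (-2, 1), (-1, 1), (1, 1), (5, 2), (8,
    3), (11, 4)], -3, 11, 1, true, 0, []⟩,
  ⟨[-6, -93, 0, 69, 0, -15, 0, 1], [(-8, 3), (-5, 2), (-2, 1), (-1, 1), (1, 1), (2, 1), (5, 2),
    (11, 4)], 1, 3, 1, false, 0, [-6, -93, 0, 69, 0, -15, 0, 1]⟩,
  ⟨[15, -15, -57, 21, 27, -9, -3, 1], [(-5, 2), (-2, 1), (-1, 1), (0, 1), (1, 1), (2, 1), (8, 3),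
    (14, 5)], 1, 3, 1, false, 0, [15, -15, -57, 21, 27, -9, -3, 1]⟩]

/-- dimension 8 -/
def sm8 : List Sm := [
  ⟨[6, 24, -114, -6, 72, 0, -15, 0, 1], [(-5, 2), (-7, 3), (-11, 5), (-1, 1), (0, 1), (1, 1), (9,
    5), (2, 1), (14, 5)], 1, 3, 1, false, 0, [6, 24, -114, -6, 72, 0, -15, 0, 1]⟩,
  ⟨[6, 42, -24, -66, 24, 27, -9, -3, 1], [(-5, 2), (-2, 1), (-3, 2), (-1, 1), (0, 1), (1, 1), (2,
    1), (8, 3), (14, 5)], 1, 3, 1, false, 0, [6, 42, -24, -66, 24, 27, -9, -3, 1]⟩,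
  ⟨[-30, -204, -192, 72, 105, -6, -18, 0, 1], [(-11, 4), (-5, 2), (-2, 1), (-3, 2), (-1, 1), (1,
    1), (5, 2), (14, 5), (181, 64)], 1, 3, 1, false, 0, [-30, -204, -192, 72, 105, -6, -18, 0, 1]⟩,
  ⟨[78, -132, -84, 123, 45, -36, -12, 3, 1], [(-113, 40), (-5, 2), (-7, 3), (-2, 1), (-1, 1), (1,
    1), (3, 2), (2, 1), (8, 3)], 1, 3, 1, false, 0, [78, -132, -84, 123, 45, -36, -12, 3, 1]⟩,
  ⟨[12, 30, -99, -6, 69, 0, -15, 0, 1], [(-11, 4), (-5, 2), (-2, 1), (-1, 1), (0, 1), (1, 1), (2,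
    1), (5, 2), (181, 64)], 1, 3, 1, false, 0, [12, 30, -99, -6, 69, 0, -15, 0, 1]⟩,
  ⟨[-312, -453, 33, 273, 57, -51, -15, 3, 1], [(-11, 4), (-8, 3), (-5, 2), (-2, 1), (-4, 3), (0,
    1), (2, 1), (5, 2), (45, 16)], 1, 3, 1, false, 0, [-312, -453, 33, 273, 57, -51, -15, 3, 1]⟩,
  ⟨[33, 48, -180, -6, 102, 0, -18, 0, 1], [(-181, 64), (-5, 2), (-2, 1), (-1, 1), (0, 1), (1, 1),
    (2, 1), (11, 4), (113, 40)], 1, 3, 1, false, 0, [33, 48, -180, -6, 102, 0, -18, 0, 1]⟩]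

/-- dimension 9 -/
def sm9 : List Sm := [
  ⟨[-6, 516, 0, -480, 0, 156, 0, -21, 0, 1], [(-14, 5), (-8, 3), (-2, 1), (-5, 3), (-1, 1), (1,
    1), (5, 3), (2, 1), (8, 3), (113, 40)], 1, 3, 1, false, 0, [-6, 516, 0, -480, 0, 156, 0, -21,
    0, 1]⟩,
  ⟨[258, 132, -444, -168, 228, 78, -45, -15, 3, 1], [(-11, 4), (-8, 3), (-5, 2), (-2, 1), (-1,
    1), (0, 1), (3, 2), (2, 1), (5, 2), (8, 3)], 1, 3, 1, false, 0, [258, 132, -444, -168, 228,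
    78, -45, -15, 3, 1]⟩,
  ⟨[-78, 210, 48, -270, -6, 111, 0, -18, 0, 1], [(-8, 3), (-5, 2), (-2, 1), (-3, 2), (0, 1), (1,
    2), (1, 1), (2, 1), (5, 2), (113, 40)], 1, 3, 1, false, 0, [-78, 210, 48, -270, -6, 111, 0,
    -18, 0, 1]⟩,
  ⟨[-120, -534, 900, -36, -399, 93, 60, -18, -3, 1], [(-14, 5), (-8, 3), (-5, 2), (-1, 1), (1,
    1), (3, 2), (2, 1), (5, 2), (19, 7), (11, 4)], 1, 3, 1, false, 0, [-120, -534, 900, -36, -399,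
    93, 60, -18, -3, 1]⟩,
  ⟨[6, -42, -18, 111, -24, -75, 42, 3, -6, 1], [(-8, 3), (-2, 1), (-3, 4), (0, 1), (1, 1), (3,
    2), (5, 3), (2, 1), (8, 3), (181, 64)], 1, 3, 1, false, 0, [6, -42, -18, 111, -24, -75, 42, 3,
    -6, 1]⟩,
  ⟨[114, 156, -357, -165, 213, 75, -45, -15, 3, 1], [(-11, 4), (-8, 3), (-5, 2), (-7, 3), (-1,
    1), (0, 1), (1, 1), (5, 3), (2, 1), (14, 5)], 1, 3, 1, false, 0, [114, 156, -357, -165, 213,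
    75, -45, -15, 3, 1]⟩,
  ⟨[24, 273, -6, -300, 0, 114, 0, -18, 0, 1], [(-11, 4), (-5, 2), (-2, 1), (-3, 2), (-1, 1), (1,
    1), (5, 3), (2, 1), (5, 2), (11, 4)], 1, 3, 1, false, 0, [24, 273, -6, -300, 0, 114, 0, -18,
    0, 1]⟩,
  ⟨[3, 57, -102, -72, 114, 42, -36, -12, 3, 1], [(-113, 40), (-8, 3), (-5, 2), (-2, 1), (-1, 1),
    (0, 1), (1, 1), (3, 2), (2, 1), (14, 5)], 1, 3, 1, false, 0, [3, 57, -102, -72, 114, 42, -36,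
    -12, 3, 1]⟩]

/-- dimension 10 -/
def sm10 : List Sm := [
  ⟨[-84, 42, 528, -6, -480, 0, 156, 0, -21, 0, 1], [(-14, 5), (-8, 3), (-5, 2), (-2, 1), (-1, 1),
    (0, 1), (1, 1), (5, 3), (2, 1), (8, 3), (45, 16)], 1, 3, 1, false, 0, [-84, 42, 528, -6, -480,
    0, 156, 0, -21, 0, 1]⟩,
  ⟨[-6, -54, 72, 312, -126, -210, 72, 45, -15, -3, 1], [(-11, 4), (-5, 2), (-2, 1), (-1, 1), (-1,
    3), (0, 1), (1, 1), (2, 1), (5, 2), (11, 4), (113, 40)], 1, 3, 1, false, 0, [-6, -54, 72, 312,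
    -126, -210, 72, 45, -15, -3, 1]⟩,
  ⟨[-48, -6, 246, 0, -276, 0, 111, 0, -18, 0, 1], [(-14, 5), (-5, 2), (-2, 1), (-3, 2), (-1, 1),
    (0, 1), (1, 1), (3, 2), (2, 1), (5, 2), (14, 5)], 1, 3, 1, false, 0, [-48, -6, 246, 0, -276,
    0, 111, 0, -18, 0, 1]⟩,
  ⟨[276, -438, -480, 942, -48, -399, 93, 60, -18, -3, 1], [(-45, 16), (-11, 4), (-5, 2), (-1, 1),
    (0, 1), (1, 1), (3, 2), (2, 1), (5, 2), (11, 4), (45, 16)], 1, 3, 1, false, 0, [276, -438,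
    -480, 942, -48, -399, 93, 60, -18, -3, 1]⟩,
  ⟨[-204, -6, 666, 0, -519, 0, 159, 0, -21, 0, 1], [(-14, 5), (-8, 3), (-5, 2), (-2, 1), (-1, 1),
    (0, 1), (1, 1), (2, 1), (7, 3), (5, 2), (14, 5)], 1, 3, 1, false, 0, [-204, -6, 666, 0, -519,
    0, 159, 0, -21, 0, 1]⟩,
  ⟨[66, -102, -276, 465, 27, -273, 57, 51, -15, -3, 1], [(-45, 16), (-5, 2), (-2, 1), (-1, 1),
    (0, 1), (1, 1), (3, 2), (2, 1), (7, 3), (5, 2), (45, 16)], 1, 3, 1, false, 0, [66, -102, -276,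
    465, 27, -273, 57, 51, -15, -3, 1]⟩,
  ⟨[-6, 24, 147, -6, -240, 0, 108, 0, -18, 0, 1], [(-11, 4), (-8, 3), (-2, 1), (-1, 1), (-1, 2),
    (0, 1), (1, 1), (3, 2), (2, 1), (5, 2), (45, 16)], 1, 3, 1, false, 0, [-6, 24, 147, -6, -240,
    0, 108, 0, -18, 0, 1]⟩,
  ⟨[-348, 609, 489, -786, -324, 330, 114, -54, -18, 3, 1], [(-11, 4), (-19, 7), (-5, 2), (-7, 3),
    (-2, 1), (0, 1), (1, 1), (3, 2), (2, 1), (5, 2), (14, 5)], 1, 3, 1, false, 0, [-348, 609, 489,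
    -786, -324, 330, 114, -54, -18, 3, 1]⟩,
  ⟨[-69, -6, 525, 0, -480, 0, 156, 0, -21, 0, 1], [(-14, 5), (-8, 3), (-5, 2), (-2, 1), (-1, 1),
    (0, 1), (1, 1), (2, 1), (5, 2), (8, 3), (113, 40)], 1, 3, 1, false, 0, [-69, -6, 525, 0, -480,
    0, 156, 0, -21, 0, 1]⟩]

/-- dimension 11 -/
def sm11 : List Sm := [
  ⟨[-6, -210, 0, 588, 0, -486, 0, 156, 0, -21, 0, 1], [(-113, 40), (-8, 3), (-2, 1), (-3, 2),
    (-1, 1), (-1, 2), (0, 1), (1, 1), (2, 1), (5, 2), (8, 3), (113, 40)], 1, 3, 1, false, 0, [-6,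
    -210, 0, 588, 0, -486, 0, 156, 0, -21, 0, 1]⟩,
  ⟨[-280, -712, 800, 1344, -558, -780, 162, 198, -21, -23, 1, 1], [(-14, 5), (-8, 3), (-5, 2),
    (-2, 1), (-3, 2), (-1, 1), (0, 1), (1, 1), (2, 1), (7, 3), (5, 2), (14, 5)], 1, 7, 1, false,
    1, [132, 792, -1044, -1341, 1074, 990, -300, -348, -18, 42, 12, 1]⟩,
  ⟨[48, -696, -6, 1416, 0, -846, 0, 213, 0, -24, 0, 1], [(-113, 40), (-8, 3), (-5, 2), (-2, 1),
    (-1, 1), (0, 1), (1, 2), (1, 1), (2, 1), (5, 2), (11, 4), (45, 16)], 1, 3, 1, false, 0, [48,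
    -696, -6, 1416, 0, -846, 0, 213, 0, -24, 0, 1]⟩,
  ⟨[12, -78, -564, 294, 762, -282, -327, 111, 54, -18, -3, 1], [(-45, 16), (-5, 2), (-2, 1), (-3,
    2), (-1, 1), (0, 1), (1, 1), (3, 2), (2, 1), (8, 3), (14, 5), (113, 40)], 1, 3, 1, false, 0,
    [12, -78, -564, 294, 762, -282, -327, 111, 54, -18, -3, 1]⟩,
  ⟨[-6, -234, 0, 672, 0, -519, 0, 159, 0, -21, 0, 1], [(-14, 5), (-8, 3), (-5, 2), (-2, 1), (-1,
    1), (-1, 2), (0, 1), (1, 1), (2, 1), (5, 2), (8, 3), (14, 5)], 1, 3, 1, false, 0, [-6, -234,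
    0, 672, 0, -519, 0, 159, 0, -21, 0, 1]⟩,
  ⟨[-172, -448, 662, 1140, -519, -735, 159, 195, -21, -23, 1, 1], [(-45, 16), (-11, 4), (-5, 2),
    (-2, 1), (-1, 1), (-1, 2), (0, 1), (1, 1), (2, 1), (5, 2), (8, 3), (14, 5)], 1, 7, 1, false,
    1, [240, 510, -1218, -1104, 1188, 954, -324, -351, -18, 42, 12, 1]⟩,
  ⟨[-6, -1044, 0, 1653, 0, -894, 0, 216, 0, -24, 0, 1], [(-14, 5), (-8, 3), (-5, 2), (-2, 1),
    (-3, 2), (-1, 1), (1, 1), (3, 2), (2, 1), (5, 2), (8, 3), (45, 16)], 1, 3, 1, false, 0, [-6,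
    -1044, 0, 1653, 0, -894, 0, 216, 0, -24, 0, 1]⟩,
  ⟨[-24, 492, -723, -459, 1050, -78, -408, 96, 60, -18, -3, 1], [(-113, 40), (-8, 3), (-5, 2),
    (-2, 1), (0, 1), (1, 2), (1, 1), (3, 2), (2, 1), (5, 2), (8, 3), (113, 40)], 1, 3, 1, false,
    0, [-24, 492, -723, -459, 1050, -78, -408, 96, 60, -18, -3, 1]⟩,
  ⟨[-6, -189, 0, 585, 0, -486, 0, 156, 0, -21, 0, 1], [(-113, 40), (-8, 3), (-2, 1), (-3, 2),
    (-1, 1), (-1, 2), (0, 1), (1, 1), (3, 2), (2, 1), (8, 3), (113, 40)], 1, 3, 1, false, 0, [-6,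
    -189, 0, 585, 0, -486, 0, 156, 0, -21, 0, 1]⟩,
  ⟨[-21, 231, -327, -267, 564, 0, -282, 60, 51, -15, -3, 1], [(-45, 16), (-5, 2), (-2, 1), (-3,
    2), (0, 1), (1, 2), (1, 1), (3, 2), (5, 3), (2, 1), (5, 2), (14, 5)], 1, 3, 1, false, 0, [-21,
    231, -327, -267, 564, 0, -282, 60, 51, -15, -3, 1]⟩]

/-- dimension 12 -/
def sm12 : List Sm := [
  ⟨[42, -6, -480, 0, 870, 0, -564, 0, 162, 0, -21, 0, 1], [(-14, 5), (-5, 2), (-2, 1), (-5, 3),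
    (-1, 1), (-1, 2), (0, 1), (1, 2), (1, 1), (2, 1), (7, 3), (5, 2), (14, 5)], 1, 3, 1, false, 0,
    [42, -6, -480, 0, 870, 0, -564, 0, 162, 0, -21, 0, 1]⟩,
  ⟨[-318, 486, 1512, -2514, -486, 1986, -282, -570, 144, 69, -21, -3, 1], [(-14, 5), (-11, 4),
    (-5, 2), (-2, 1), (-1, 1), (0, 1), (1, 1), (4, 3), (3, 2), (2, 1), (5, 2), (11, 4), (113,
    40)], 1, 3, 1, false, 0, [-318, 486, 1512, -2514, -486, 1986, -282, -570, 144, 69, -21, -3,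
    1]⟩,
  ⟨[240, -6, -1506, 0, 1902, 0, -942, 0, 219, 0, -24, 0, 1], [(-14, 5), (-8, 3), (-5, 2), (-2,
    1), (-3, 2), (-1, 1), (0, 1), (1, 1), (3, 2), (2, 1), (5, 2), (8, 3), (14, 5)], 1, 3, 1,
    false, 0, [240, -6, -1506, 0, 1902, 0, -942, 0, 219, 0, -24, 0, 1]⟩,
  ⟨[96, 222, -516, -930, 606, 894, -360, -339, 117, 54, -18, -3, 1], [(-14, 5), (-5, 2), (-2, 1),
    (-3, 2), (-1, 1), (-1, 2), (0, 1), (1, 1), (2, 1), (7, 3), (5, 2), (8, 3), (45, 16)], 1, 3, 1,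
    false, 0, [96, 222, -516, -930, 606, 894, -360, -339, 117, 54, -18, -3, 1]⟩,
  ⟨[546, -246, -2832, 78, 3138, -6, -1365, 0, 279, 0, -27, 0, 1], [(-14, 5), (-11, 4), (-8, 3),
    (-2, 1), (-3, 2), (-1, 1), (0, 1), (1, 1), (3, 2), (2, 1), (5, 2), (11, 4), (113, 40)], 1, 3,
    1, false, 0, [546, -246, -2832, 78, 3138, -6, -1365, 0, 279, 0, -27, 0, 1]⟩,
  ⟨[222, 1470, -894, -2700, 1092, 1725, -609, -489, 165, 63, -21, -3, 1], [(-14, 5), (-5, 2),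
    (-7, 3), (-2, 1), (-4, 3), (-1, 1), (0, 1), (3, 2), (2, 1), (5, 2), (8, 3), (11, 4), (45,
    16)], 1, 3, 1, false, 0, [222, 1470, -894, -2700, 1092, 1725, -609, -489, 165, 63, -21, -3,
    1]⟩,
  ⟨[84, -6, -1056, 0, 1653, 0, -894, 0, 216, 0, -24, 0, 1], [(-14, 5), (-8, 3), (-5, 2), (-2, 1),
    (-3, 2), (-1, 1), (0, 1), (1, 1), (3, 2), (2, 1), (5, 2), (8, 3), (45, 16)], 1, 3, 1, false,
    0, [84, -6, -1056, 0, 1653, 0, -894, 0, 216, 0, -24, 0, 1]⟩,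
  ⟨[-132, 222, 822, -1365, -387, 1266, -138, -426, 102, 60, -18, -3, 1], [(-14, 5), (-5, 2), (-7,
    3), (-2, 1), (-1, 1), (0, 1), (1, 1), (4, 3), (3, 2), (2, 1), (7, 3), (5, 2), (14, 5)], 1, 3,
    1, false, 0, [-132, 222, 822, -1365, -387, 1266, -138, -426, 102, 60, -18, -3, 1]⟩,
  ⟨[48, -6, -495, 0, 873, 0, -564, 0, 162, 0, -21, 0, 1], [(-14, 5), (-5, 2), (-2, 1), (-5, 3),
    (-1, 1), (-1, 2), (0, 1), (1, 1), (4, 3), (2, 1), (7, 3), (5, 2), (14, 5)], 1, 3, 1, false, 0,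
    [48, -6, -495, 0, 873, 0, -564, 0, 162, 0, -21, 0, 1]⟩,
  ⟨[-312, 519, 1485, -2517, -483, 1986, -282, -570, 144, 69, -21, -3, 1], [(-45, 16), (-11, 4),
    (-5, 2), (-2, 1), (-1, 1), (0, 1), (1, 1), (4, 3), (3, 2), (2, 1), (5, 2), (11, 4), (45, 16)],
    1, 3, 1, false, 0, [-312, 519, 1485, -2517, -483, 1986, -282, -570, 144, 69, -21, -3, 1]⟩,
  ⟨[57, -6, -774, 0, 1425, 0, -846, 0, 213, 0, -24, 0, 1], [(-45, 16), (-8, 3), (-5, 2), (-2, 1),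
    (-1, 1), (-1, 2), (0, 1), (1, 2), (1, 1), (2, 1), (5, 2), (8, 3), (113, 40)], 1, 3, 1, false,
    0, [57, -6, -774, 0, 1425, 0, -846, 0, 213, 0, -24, 0, 1]⟩]

/-- dimension 13 -/
def sm13 : List Sm := [
  ⟨[-6, 1032, 0, -3660, 0, 3498, 0, -1422, 0, 282, 0, -27, 0, 1], [(-45, 16), (-8, 3), (-5, 2),
    (-2, 1), (-3, 2), (-1, 1), (0, 1), (1, 2), (1, 1), (3, 2), (2, 1), (5, 2), (8, 3), (45, 16)],
    1, 3, 1, false, 0, [-6, 1032, 0, -3660, 0, 3498, 0, -1422, 0, 282, 0, -27, 0, 1]⟩,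
  ⟨[6, -348, 498, 1512, -2514, -486, 1986, -282, -570, 144, 69, -21, -3, 1], [(-45, 16), (-11,
    4), (-5, 2), (-2, 1), (-1, 1), (0, 1), (1, 3), (1, 2), (1, 1), (5, 3), (2, 1), (5, 2), (11,
    4), (45, 16)], 1, 3, 1, false, 0, [6, -348, 498, 1512, -2514, -486, 1986, -282, -570, 144, 69,
    -21, -3, 1]⟩,
  ⟨[-6, 438, 0, -1746, 0, 1974, 0, -948, 0, 219, 0, -24, 0, 1], [(-45, 16), (-8, 3), (-5, 2),
    (-2, 1), (-3, 2), (-1, 1), (0, 1), (1, 2), (1, 1), (3, 2), (2, 1), (5, 2), (8, 3), (45, 16)],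
    1, 3, 1, false, 0, [-6, 438, 0, -1746, 0, 1974, 0, -948, 0, 219, 0, -24, 0, 1]⟩,
  ⟨[78, -2304, -3654, 2994, 6360, -114, -3354, -612, 759, 201, -78, -24, 3, 1], [(-45, 16), (-11,
    4), (-8, 3), (-5, 2), (-2, 1), (-3, 2), (-1, 1), (0, 1), (1, 2), (1, 1), (2, 1), (8, 3), (11,
    4), (113, 40)], 1, 3, 1, false, 0, [78, -2304, -3654, 2994, 6360, -114, -3354, -612, 759, 201,
    -78, -24, 3, 1]⟩,
  ⟨[-6, 1758, 0, -4608, 0, 3870, 0, -1479, 0, 285, 0, -27, 0, 1], [(-14, 5), (-8, 3), (-5, 2),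
    (-7, 3), (-2, 1), (-1, 1), (0, 1), (1, 2), (1, 1), (3, 2), (2, 1), (5, 2), (8, 3), (14, 5)],
    1, 3, 1, false, 0, [-6, 1758, 0, -4608, 0, 3870, 0, -1479, 0, 285, 0, -27, 0, 1]⟩,
  ⟨[60, -732, 1050, 1710, -3090, -384, 2121, -321, -579, 147, 69, -21, -3, 1], [(-45, 16), (-8,
    3), (-5, 2), (-2, 1), (-1, 1), (0, 1), (1, 2), (1, 1), (3, 2), (5, 3), (2, 1), (5, 2), (8, 3),
    (113, 40)], 1, 3, 1, false, 0, [60, -732, 1050, 1710, -3090, -384, 2121, -321, -579, 147, 69,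
    -21, -3, 1]⟩,
  ⟨[-6, 282, 0, -1332, 0, 1731, 0, -900, 0, 216, 0, -24, 0, 1], [(-113, 40), (-8, 3), (-5, 2),
    (-2, 1), (-3, 2), (-1, 1), (0, 1), (1, 2), (1, 1), (3, 2), (2, 1), (5, 2), (8, 3), (113, 40)],
    1, 3, 1, false, 0, [-6, 282, 0, -1332, 0, 1731, 0, -900, 0, 216, 0, -24, 0, 1]⟩,
  ⟨[30, -360, 498, 858, -1533, -345, 1284, -144, -426, 102, 60, -18, -3, 1], [(-14, 5), (-5, 2),
    (-2, 1), (-3, 2), (-1, 1), (0, 1), (1, 2), (1, 1), (4, 3), (3, 2), (2, 1), (7, 3), (5, 2),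
    (14, 5)], 1, 3, 1, false, 0, [30, -360, 498, 858, -1533, -345, 1284, -144, -426, 102, 60, -18,
    -3, 1]⟩,
  ⟨[-6, 912, 0, -3621, 0, 3495, 0, -1422, 0, 282, 0, -27, 0, 1], [(-45, 16), (-11, 4), (-5, 2),
    (-2, 1), (-3, 2), (-1, 1), (0, 1), (1, 2), (1, 1), (3, 2), (2, 1), (5, 2), (11, 4), (45, 16)],
    1, 3, 1, false, 0, [-6, 912, 0, -3621, 0, 3495, 0, -1422, 0, 282, 0, -27, 0, 1]⟩,
  ⟨[-48, -294, 537, 1479, -2517, -483, 1986, -282, -570, 144, 69, -21, -3, 1], [(-113, 40), (-11,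
    4), (-5, 2), (-2, 1), (-1, 1), (-1, 3), (0, 1), (2, 3), (1, 1), (5, 3), (2, 1), (5, 2), (11,
    4), (14, 5)], 1, 3, 1, false, 0, [-48, -294, 537, 1479, -2517, -483, 1986, -282, -570, 144,
    69, -21, -3, 1]⟩,
  ⟨[-6, 471, 0, -1770, 0, 1977, 0, -948, 0, 219, 0, -24, 0, 1], [(-14, 5), (-8, 3), (-5, 2), (-2,
    1), (-3, 2), (-1, 1), (0, 1), (1, 2), (1, 1), (3, 2), (2, 1), (5, 2), (8, 3), (14, 5)], 1, 3,
    1, false, 0, [-6, 471, 0, -1770, 0, 1977, 0, -948, 0, 219, 0, -24, 0, 1]⟩,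
  ⟨[3, -2301, 3570, 3018, -6351, -117, 3354, -612, -759, 201, 78, -24, -3, 1], [(-113, 40), (-11,
    4), (-5, 2), (-2, 1), (-1, 1), (0, 1), (1, 2), (1, 1), (3, 2), (2, 1), (5, 2), (8, 3), (11,
    4), (113, 40)], 1, 3, 1, false, 0, [3, -2301, 3570, 3018, -6351, -117, 3354, -612, -759, 201,
    78, -24, -3, 1]⟩]

/-- dimension 14 -/
def sm14 : List Sm := [
  ⟨[-114, -6, 1710, 0, -4128, 0, 3594, 0, -1428, 0, 282, 0, -27, 0, 1], [(-45, 16), (-11, 4),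
    (-5, 2), (-2, 1), (-3, 2), (-1, 1), (-1, 2), (0, 1), (1, 2), (1, 1), (3, 2), (2, 1), (5, 2),
    (11, 4), (45, 16)], 1, 3, 1, false, 0, [-114, -6, 1710, 0, -4128, 0, 3594, 0, -1428, 0, 282,
    0, -27, 0, 1]⟩,
  ⟨[114, -138, -1296, 2004, 1812, -3720, -264, 2256, -360, -588, 150, 69, -21, -3, 1], [(-14, 5),
    (-8, 3), (-5, 2), (-2, 1), (-1, 1), (-1, 2), (0, 1), (1, 2), (1, 1), (3, 2), (5, 3), (2, 1),
    (5, 2), (8, 3), (14, 5)], 1, 3, 1, false, 0, [114, -138, -1296, 2004, 1812, -3720, -264, 2256,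
    -360, -588, 150, 69, -21, -3, 1]⟩,
  ⟨[-480, -240, 5430, 78, -9822, -6, 6600, 0, -2130, 0, 357, 0, -30, 0, 1], [(-113, 40), (-11,
    4), (-8, 3), (-5, 2), (-2, 1), (-3, 2), (-1, 1), (0, 1), (1, 2), (1, 1), (2, 1), (7, 3), (5,
    2), (11, 4), (113, 40)], 1, 3, 1, false, 0, [-480, -240, 5430, 78, -9822, -6, 6600, 0, -2130,
    0, 357, 0, -30, 0, 1]⟩,
  ⟨[48, 60, -2406, 3540, 3054, -6348, -120, 3354, -612, -759, 201, 78, -24, -3, 1], [(-113, 40),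
    (-11, 4), (-5, 2), (-2, 1), (-1, 1), (-1, 2), (0, 1), (1, 2), (1, 1), (3, 2), (2, 1), (7, 3),
    (5, 2), (11, 4), (113, 40)], 1, 3, 1, false, 0, [48, 60, -2406, 3540, 3054, -6348, -120, 3354,
    -612, -759, 201, 78, -24, -3, 1]⟩,
  ⟨[-174, -6, 2400, 0, -5028, 0, 3960, 0, -1485, 0, 285, 0, -27, 0, 1], [(-45, 16), (-8, 3), (-5,
    2), (-2, 1), (-3, 2), (-1, 1), (-1, 2), (0, 1), (1, 2), (1, 1), (3, 2), (2, 1), (5, 2), (8,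
    3), (113, 40)], 1, 3, 1, false, 0, [-174, -6, 2400, 0, -5028, 0, 3960, 0, -1485, 0, 285, 0,
    -27, 0, 1]⟩,
  ⟨[-12, -330, 348, 1938, -1038, -2886, 1152, 1743, -615, -489, 165, 63, -21, -3, 1], [(-14, 5),
    (-5, 2), (-2, 1), (-3, 2), (-4, 3), (-1, 1), (-1, 2), (0, 1), (1, 1), (3, 2), (2, 1), (5, 2),
    (8, 3), (14, 5), (113, 40)], 1, 3, 1, false, 0, [-12, -330, 348, 1938, -1038, -2886, 1152,
    1743, -615, -489, 165, 63, -21, -3, 1]⟩,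
  ⟨[-726, -6, 7434, 0, -11532, 0, 7119, 0, -2196, 0, 360, 0, -30, 0, 1], [(-113, 40), (-11, 4),
    (-5, 2), (-7, 3), (-2, 1), (-3, 2), (-1, 1), (0, 1), (1, 1), (3, 2), (2, 1), (7, 3), (5, 2),
    (8, 3), (113, 40)], 1, 3, 1, false, 0, [-726, -6, 7434, 0, -11532, 0, 7119, 0, -2196, 0, 360,
    0, -30, 0, 1]⟩,
  ⟨[384, -546, -3408, 5400, 3060, -7293, 87, 3516, -660, -768, 204, 78, -24, -3, 1], [(-45, 16),
    (-11, 4), (-5, 2), (-2, 1), (-3, 2), (-1, 1), (0, 1), (1, 2), (1, 1), (3, 2), (2, 1), (7, 3),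
    (5, 2), (11, 4), (113, 40)], 1, 3, 1, false, 0, [384, -546, -3408, 5400, 3060, -7293, 87,
    3516, -660, -768, 204, 78, -24, -3, 1]⟩,
  ⟨[-138, -6, 1782, 0, -4161, 0, 3597, 0, -1428, 0, 282, 0, -27, 0, 1], [(-45, 16), (-11, 4),
    (-5, 2), (-2, 1), (-3, 2), (-1, 1), (-1, 2), (0, 1), (1, 2), (1, 1), (3, 2), (2, 1), (5, 2),
    (11, 4), (113, 40)], 1, 3, 1, false, 0, [-138, -6, 1782, 0, -4161, 0, 3597, 0, -1428, 0, 282,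
    0, -27, 0, 1]⟩,
  ⟨[96, -102, -1266, 1941, 1827, -3711, -267, 2256, -360, -588, 150, 69, -21, -3, 1], [(-14, 5),
    (-8, 3), (-5, 2), (-2, 1), (-1, 1), (-1, 2), (0, 1), (1, 2), (1, 1), (3, 2), (2, 1), (9, 4),
    (5, 2), (8, 3), (14, 5)], 1, 3, 1, false, 0, [96, -102, -1266, 1941, 1827, -3711, -267, 2256,
    -360, -588, 150, 69, -21, -3, 1]⟩,
  ⟨[-528, 48, 5583, -6, -9864, 0, 6603, 0, -2130, 0, 357, 0, -30, 0, 1], [(-45, 16), (-11, 4),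
    (-8, 3), (-5, 2), (-2, 1), (-1, 1), (-1, 2), (0, 1), (1, 1), (3, 2), (2, 1), (7, 3), (5, 2),
    (11, 4), (45, 16)], 1, 3, 1, false, 0, [-528, 48, 5583, -6, -9864, 0, 6603, 0, -2130, 0, 357,
    0, -30, 0, 1]⟩,
  ⟨[102, 195, -2889, 3690, 3234, -6417, -135, 3360, -612, -759, 201, 78, -24, -3, 1], [(-113,
    40), (-14, 5), (-5, 2), (-2, 1), (-3, 2), (-1, 1), (0, 1), (1, 2), (1, 1), (3, 2), (2, 1), (7,
    3), (5, 2), (11, 4), (113, 40)], 1, 3, 1, false, 0, [102, 195, -2889, 3690, 3234, -6417, -135,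
    3360, -612, -759, 201, 78, -24, -3, 1]⟩,
  ⟨[-231, -6, 2487, 0, -5061, 0, 3963, 0, -1485, 0, 285, 0, -27, 0, 1], [(-45, 16), (-8, 3), (-5,
    2), (-2, 1), (-3, 2), (-1, 1), (-1, 2), (0, 1), (1, 2), (1, 1), (3, 2), (2, 1), (5, 2), (8,
    3), (45, 16)], 1, 3, 1, false, 0, [-231, -6, 2487, 0, -5061, 0, 3963, 0, -1485, 0, 285, 0,
    -27, 0, 1]⟩]

/-- dimension 15 -/
def sm15 : List Sm := [
  ⟨[-6, -8004, 0, 25230, 0, -25476, 0, 12150, 0, -3120, 0, 444, 0, -33, 0, 1], [(-113, 40), (-11,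
    4), (-8, 3), (-5, 2), (-2, 1), (-3, 2), (-1, 1), (-1, 2), (0, 1), (1, 1), (3, 2), (2, 1), (5,
    2), (8, 3), (11, 4), (113, 40)], 1, 3, 1, false, 0, [-6, -8004, 0, 25230, 0, -25476, 0, 12150,
    0, -3120, 0, 444, 0, -33, 0, 1]⟩,
  ⟨[156, 3228, -5310, -9486, 17124, 4080, -14730, 1296, 5424, -1152, -984, 270, 87, -27, -3, 1],
    [(-113, 40), (-11, 4), (-5, 2), (-7, 3), (-2, 1), (-1, 1), (-1, 2), (0, 1), (1, 1), (4, 3),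
    (3, 2), (2, 1), (5, 2), (8, 3), (11, 4), (113, 40)], 1, 3, 1, false, 0, [156, 3228, -5310,
    -9486, 17124, 4080, -14730, 1296, 5424, -1152, -984, 270, 87, -27, -3, 1]⟩,
  ⟨[-6, -3888, 0, 12540, 0, -14256, 0, 7770, 0, -2268, 0, 363, 0, -30, 0, 1], [(-113, 40), (-8,
    3), (-5, 2), (-7, 3), (-2, 1), (-3, 2), (-1, 1), (-1, 2), (0, 1), (1, 1), (3, 2), (2, 1), (7,
    3), (5, 2), (8, 3), (113, 40)], 1, 3, 1, false, 0, [-6, -3888, 0, 12540, 0, -14256, 0, 7770,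
    0, -2268, 0, 363, 0, -30, 0, 1]⟩,
  ⟨[246, -192, -3738, 1824, 8220, -3384, -7176, 2640, 3054, -1056, -669, 225, 72, -24, -3, 1],
    [(-14, 5), (-8, 3), (-2, 1), (-5, 3), (-3, 2), (-4, 3), (-1, 1), (0, 1), (1, 2), (1, 1), (3,
    2), (2, 1), (5, 2), (8, 3), (11, 4), (113, 40)], 1, 3, 1, false, 0, [246, -192, -3738, 1824,
    8220, -3384, -7176, 2640, 3054, -1056, -669, 225, 72, -24, -3, 1]⟩,
  ⟨[-12, -558, 30, 3240, -6, -5514, 0, 4056, 0, -1491, 0, 285, 0, -27, 0, 1], [(-113, 40), (-11,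
    4), (-5, 2), (-2, 1), (-3, 2), (-1, 1), (-2, 3), (-1, 2), (0, 1), (1, 1), (4, 3), (3, 2), (2,
    1), (5, 2), (11, 4), (113, 40)], 1, 3, 1, false, 0, [-12, -558, 30, 3240, -6, -5514, 0, 4056,
    0, -1491, 0, 285, 0, -27, 0, 1]⟩,
  ⟨[294, 2526, 2574, -9060, -13764, 4662, 13464, 954, -5241, -1095, 975, 267, -87, -27, 3, 1],
    [(-113, 40), (-11, 4), (-8, 3), (-5, 2), (-2, 1), (-3, 2), (-1, 1), (-2, 3), (-1, 2), (0, 1),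
    (1, 1), (2, 1), (5, 2), (8, 3), (14, 5), (45, 16)], 1, 3, 1, false, 0, [294, 2526, 2574,
    -9060, -13764, 4662, 13464, 954, -5241, -1095, 975, 267, -87, -27, 3, 1]⟩,
  ⟨[-6, -2406, 0, 9612, 0, -12354, 0, 7239, 0, -2202, 0, 360, 0, -30, 0, 1], [(-45, 16), (-11,
    4), (-5, 2), (-7, 3), (-2, 1), (-3, 2), (-1, 1), (-1, 2), (0, 1), (1, 1), (3, 2), (2, 1), (7,
    3), (5, 2), (11, 4), (113, 40)], 1, 3, 1, false, 0, [-6, -2406, 0, 9612, 0, -12354, 0, 7239,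
    0, -2202, 0, 360, 0, -30, 0, 1]⟩,
  ⟨[12, 396, -552, -3408, 5400, 3060, -7293, 87, 3516, -660, -768, 204, 78, -24, -3, 1], [(-45,
    16), (-11, 4), (-5, 2), (-2, 1), (-3, 2), (-1, 1), (-1, 3), (0, 1), (1, 2), (1, 1), (3, 2),
    (2, 1), (7, 3), (5, 2), (11, 4), (113, 40)], 1, 3, 1, false, 0, [12, 396, -552, -3408, 5400,
    3060, -7293, 87, 3516, -660, -768, 204, 78, -24, -3, 1]⟩,
  ⟨[-6, -666, 0, 3798, 0, -6171, 0, 4347, 0, -1542, 0, 288, 0, -27, 0, 1], [(-14, 5), (-8, 3),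
    (-5, 2), (-2, 1), (-3, 2), (-4, 3), (-1, 1), (-1, 2), (0, 1), (1, 1), (4, 3), (3, 2), (2, 1),
    (5, 2), (8, 3), (14, 5)], 1, 3, 1, false, 0, [-6, -666, 0, 3798, 0, -6171, 0, 4347, 0, -1542,
    0, 288, 0, -27, 0, 1]⟩,
  ⟨[-174, 3666, -5376, -9696, 17253, 4077, -14745, 1299, 5424, -1152, -984, 270, 87, -27, -3, 1],
    [(-45, 16), (-11, 4), (-8, 3), (-5, 2), (-2, 1), (-1, 1), (0, 1), (1, 2), (1, 1), (4, 3), (3,
    2), (2, 1), (5, 2), (8, 3), (11, 4), (113, 40)], 1, 3, 1, false, 0, [-174, 3666, -5376, -9696,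
    17253, 4077, -14745, 1299, 5424, -1152, -984, 270, 87, -27, -3, 1]⟩,
  ⟨[-6, -1476, 0, 7233, 0, -10584, 0, 6717, 0, -2136, 0, 357, 0, -30, 0, 1], [(-113, 40), (-11,
    4), (-8, 3), (-5, 2), (-2, 1), (-3, 2), (-1, 1), (-1, 2), (0, 1), (1, 1), (3, 2), (2, 1), (5,
    2), (8, 3), (11, 4), (113, 40)], 1, 3, 1, false, 0, [-6, -1476, 0, 7233, 0, -10584, 0, 6717,
    0, -2136, 0, 357, 0, -30, 0, 1]⟩,
  ⟨[114, -24, -2535, 1317, 7248, -3048, -6933, 2559, 3036, -1050, -669, 225, 72, -24, -3, 1],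
    [(-14, 5), (-5, 2), (-7, 3), (-2, 1), (-3, 2), (-1, 1), (-1, 2), (0, 1), (1, 2), (1, 1), (3,
    2), (2, 1), (5, 2), (8, 3), (11, 4), (113, 40)], 1, 3, 1, false, 0, [114, -24, -2535, 1317,
    7248, -3048, -6933, 2559, 3036, -1050, -669, 225, 72, -24, -3, 1]⟩,
  ⟨[-6, -519, 0, 3153, 0, -5481, 0, 4053, 0, -1491, 0, 285, 0, -27, 0, 1], [(-113, 40), (-11, 4),
    (-5, 2), (-2, 1), (-3, 2), (-1, 1), (-2, 3), (-1, 2), (0, 1), (2, 3), (1, 1), (3, 2), (2, 1),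
    (5, 2), (11, 4), (181, 64)], 1, 3, 1, false, 0, [-6, -519, 0, 3153, 0, -5481, 0, 4053, 0,
    -1491, 0, 285, 0, -27, 0, 1]⟩,
  ⟨[-321, 2469, -2295, -9129, 13659, 4695, -13455, 951, 5241, -1095, -975, 267, 87, -27, -3, 1],
    [(-113, 40), (-14, 5), (-8, 3), (-5, 2), (-2, 1), (-1, 1), (0, 1), (1, 2), (2, 3), (1, 1), (3,
    2), (2, 1), (5, 2), (8, 3), (11, 4), (113, 40)], 1, 3, 1, false, 0, [-321, 2469, -2295, -9129,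
    13659, 4695, -13455, 951, 5241, -1095, -975, 267, 87, -27, -3, 1]⟩]

/-- the certificates -/
def smt : List (List Sm) := [[], [], [], sm3, sm4, sm5, sm6, sm7, sm8, sm9, sm10, sm11, sm12, sm13, sm14, sm15]

/-- the certificate -/
def sme (g f : ℕ) : Sm := (smt.getD g []).getD (f - 2) ⟨[], [], 0, 0, 0, false, 0, []⟩

/-- the primes which occur -/
def prs : List ℕ := [3, 7, 11, 19, 1871]

/-- the check -/
def allchs : Bool := (List.range 13).all fun i => (List.range (i + 2)).all fun j =>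
  chs (i + 3) (j + 2) (sme (i + 3) (j + 2)) && decide ((sme (i + 3) (j + 2)).q ∈ prs)

theorem allchs_true : allchs = true := by decide +kernel

theorem prs_prime : ∀ q ∈ prs, q.Prime := by
  intro q hq
  simp only [prs, List.mem_cons, List.not_mem_nil, or_false] at hq
  rcases hq with rfl | rfl | rfl | rfl | rfl <;> norm_num

theorem small {g f : ℕ} (hg : 3 ≤ g) (hg15 : g ≤ 15) (hf : 2 ≤ f) (hfg : f ≤ g) : Good 2 g f := by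
  have h := allchs_true
  unfold allchs at h
  simp only [Bool.and_eq_true, decide_eq_true_eq, List.all_eq_true, List.mem_range] at h
  have h1 := h (g - 3) (by omega) (f - 2) (by omega)
  have e1 : g - 3 + 3 = g := by omega
  have e2 : f - 2 + 2 = f := by omega
  rw [e1, e2] at h1
  exact good_of_chs (by omega) (by omega) (by omega) hfg (prs_prime _ h1.2) h1.1

end Pool.Agent.N205.WT
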