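import Pool.Agent.R80.WF.Fin
import Pool.Agent.R80.WF.P3A
import Pool.Agent.R80.WF.P3B
import Pool.Agent.R80.WF.F0Fin
import Pool.Agent.R80.WF.X33
import Pool.Agent.R80.WF.X54
import Pool.Agent.R80.WF.X55
import Pool.Agent.N205.WT.Big
import Pool.Agent.N205.WT.SmallData
import Pool.Agent.N459.WT.G2
import Pool.Agent.N769.WT.G1

/-!
# Project WT: all primes, all dimensions, all p-ranks
-/

set_option autoImplicit false

namespace Pool.Agent.N205.WT

open Pool.Agent.R80.WF (Good)
open Pool.Agent

/-- the field with two elements -/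
theorem good_two {g f : ℕ} (hg : 3 ≤ g) (hf : 2 ≤ f) (hfg : f ≤ g) : Good 2 g f := by
  rcases Nat.lt_or_ge g 16 with h | h
  · exact small hg (by omega) hf hfg
  · exact big h (by omega) hfg

/-- all primes -/
theorem good_all {p g f : ℕ} (hp : p.Prime) (hg : 1 ≤ g) (hfg : f ≤ g)
    (h0 : ¬ (f = 0 ∧ g ≤ 2)) : Good p g f := by
  rcases Nat.lt_or_ge g 3 with h3 | h3
  · have hf : f ≠ 0 := fun h => h0 ⟨h, by omega⟩
    by_cases h1 : g = 1
    · subst h1
      have : f = 1 := by omega
      subst this
      exact N769.WT.t_G1 p hp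
    · have h2 : g = 2 := by omega
      subst h2
      by_cases h4 : f = 1
      · subst h4
        exact Y676.WP.one_final hp le_rfl
      · have : f = 2 := by omega
        subst this
        exact N459.WT.g2 p hp
  · rcases Nat.eq_zero_or_pos f with hf0 | hf0
    · subst hf0
      by_cases h1 : p = 3 ∧ g = 3
      · obtain ⟨rfl, rfl⟩ := h1
        exact R80.WF.g330
      by_cases h2 : p = 5 ∧ g = 4
      · obtain ⟨rfl, rfl⟩ := h2
        exact R80.WF.g540
      by_cases h3' : p = 5 ∧ g = 5
      · obtain ⟨rfl, rfl⟩ := h3'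
        exact R80.WF.g550
      exact R80.WF.good_f0 hp h3 h1 h2 h3'
    · by_cases h2 : p = 2
      · subst h2
        by_cases h4 : f = 1
        · subst h4
          exact Y676.WP.one_final hp (by omega)
        · exact good_two h3 (by omega) hfg
      · exact R80.WF.odd_main R80.WF.p3a R80.WF.p3b hp h2 h3 hf0 hfg

end Pool.Agent.N205.WT
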