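import Pool.Agent.N205.WT.Core
import Pool.Agent.N92.WT.Irr
import Pool.Agent.N277.WT.RRoot
import Pool.Agent.N438.WT9

/-!
# Project WT: certificates in small dimension
-/

set_option autoImplicit false

namespace Pool.Agent.N205.WT

open Polynomial IntermediateField
open Pool.Agent.R80.WF (PP Good)

/-- a certificate in small dimension -/
structure Sm where
  r : List ℤ
  pts : List (ℤ × ℤ)
  t : ℤ
  q : ℕ
  u : ℤ
  ir : Bool
  c : ℤ
  s : List ℤ

/-- homogeneous value -/
def hv (n d : ℤ) : List ℤ → ℤ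
  | [] => 0
  | a :: l => a * d ^ l.length + n * hv n d l

/-- the list of coefficients of `S (X - c)` -/
def shf (c : ℤ) : List ℤ → List ℤ
  | [] => []
  | a :: l => addL [a] (mulL [-c, 1] (shf c l))

instance (g : ℕ) (l : List (ZMod 3)) : Decidable (noDiv g l) := by
  unfold noDiv
  infer_instance

/-- the conditions -/
def chs (g f : ℕ) (e : Sm) : Bool :=
  decide (e.r.length = g + 1) && decide (e.r.getD g 0 = 1) &&
  (List.range (g + 1)).all (fun j =>
    decide ((e.r.getD j 0 - if g - f ≤ j then (f.choose (j - (g - f)) : ℕ) else 0) % 2 = 0)) &&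
  (List.range (g + 1)).all (fun i => decide (0 < (e.pts.getD i (0, 1)).2) &&
    decide ((e.pts.getD i (0, 1)).1 ^ 2 < 8 * (e.pts.getD i (0, 1)).2 ^ 2) &&
    decide (0 < (-1) ^ (g - i) * hv (e.pts.getD i (0, 1)).1 (e.pts.getD i (0, 1)).2 e.r)) &&
  (List.range g).all (fun i => decide ((e.pts.getD i (0, 1)).1 * (e.pts.getD (i + 1) (0, 1)).2 <
    (e.pts.getD (i + 1) (0, 1)).1 * (e.pts.getD i (0, 1)).2)) &&
  decide (e.q % 4 = 3) && decide ((e.q : ℤ) ∣ hv (e.t ^ 2 + 2) e.t e.r) &&
  decide (¬ (e.q : ℤ) ^ 2 ∣ hv (e.t ^ 2 + 2) e.t e.r) &&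
  decide (hv (e.u ^ 2 + 2) e.u e.r ≠ hv (e.u ^ 2 + 2) (-e.u) e.r) &&
  (if e.ir then decide (2 ≤ g) && decide (g ≤ 7) &&
      decide (noDiv g ((List.range (g + 1)).map fun i => ((e.r.getD (g - i) 0 : ℤ) : ZMod 3)))
    else decide (e.s.length = g + 1) && decide (e.s.getD g 0 = 1) &&
      (List.range g).all (fun j => decide ((3 : ℤ) ∣ e.s.getD j 0)) &&
      decide (¬ (9 : ℤ) ∣ e.s.getD 0 0) && decide ((shf e.c e.s).length ≤ 40) &&
      (List.range 40).all (fun j => decide (e.r.getD j 0 = (shf e.c e.s).getD j 0)))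

lemma hv_eq (n d : ℤ) : ∀ l : List ℤ, hv n d l =
    ∑ j ∈ Finset.range l.length, l.getD j 0 * n ^ j * d ^ (l.length - 1 - j)
  | [] => by simp [hv]
  | a :: l => by
    rw [hv, hv_eq n d l, List.length_cons, Finset.sum_range_succ', Finset.mul_sum, add_comm]
    simp only [List.getD_cons_succ, List.getD_cons_zero, pow_zero, mul_one]
    congr 1
    refine Finset.sum_congr rfl fun j hj => ?_
    have := Finset.mem_range.1 hj
    have h1 : l.length + 1 - 1 - (j + 1) = l.length - 1 - j := by omega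
    rw [h1, pow_succ]
    ring

lemma eval_PR (g : ℕ) (l : List ℤ) (hl : l.length = g + 1) (t : ℤ) :
    (PR g fun j => l.getD j 0).eval t = hv (t ^ 2 + 2) t l := by
  rw [hv_eq, hl, PR, eval_finsetSum]
  refine Finset.sum_congr rfl fun j _ => ?_
  simp only [eval_mul, eval_C, eval_pow, eval_X, eval_add, eval_ofNat, Nat.add_sub_cancel]
  ring

/-- the polynomial of a list -/
noncomputable def toP : List ℤ → ℤ[X]
  | [] => 0
  | a :: l => C a + X * toP l

lemma toP_coeff : ∀ (l : List ℤ) (k : ℕ), (toP l).coeff k = l.getD k 0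
  | [], k => by simp [toP]
  | a :: l, 0 => by simp [toP]
  | a :: l, k + 1 => by
    rw [toP, coeff_add, coeff_X_mul, toP_coeff l k, coeff_C_succ, zero_add, List.getD_cons_succ]

lemma toP_eq (g : ℕ) (l : List ℤ) (hl : l.length = g + 1) :
    toP l = ∑ j ∈ Finset.range (g + 1), C (l.getD j 0) * X ^ j := by
  ext k
  rw [toP_coeff, finsetSum_coeff]
  simp only [coeff_C_mul_X_pow, Finset.sum_ite_eq, Finset.mem_range]
  split_ifs with h
  · rfl
  · rw [List.getD_eq_default _ _ (by omega)]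

lemma toP_addL : ∀ l m : List ℤ, toP (addL l m) = toP l + toP m
  | [], m => by simp [addL, toP]
  | a :: l, [] => by simp [addL, toP]
  | a :: l, b :: m => by
    simp only [addL, toP, toP_addL l m, C_add]
    ring

lemma toP_smul (a : ℤ) : ∀ l : List ℤ, toP (l.map (a * ·)) = C a * toP l
  | [] => by simp [toP]
  | b :: l => by
    simp only [List.map_cons, toP, toP_smul a l, C_mul]
    ring

lemma toP_mulL : ∀ l m : List ℤ, toP (mulL l m) = toP l * toP m
  | [], m => by simp [mulL, toP]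
  | a :: l, m => by
    simp only [mulL, toP_addL, toP_smul, toP, toP_mulL l m, C_0, zero_add]
    ring

lemma toP_shf (c : ℤ) : ∀ l : List ℤ, toP (shf c l) = (toP l).comp (X - C c)
  | [] => by simp [shf, toP]
  | a :: l => by
    rw [shf, toP_addL, toP_mulL, toP_shf c l]
    simp only [toP, add_comp, C_comp, mul_comp, X_comp, C_neg, C_1]
    ring

/-- irreducibility of `S (X - c)` -/
lemma irr_shift {S : ℤ[X]} (c : ℤ) (h : Irreducible S) : Irreducible (S.comp (X - C c)) := by
  have h1 := (MulEquiv.irreducible_iff (Polynomial.algEquivAevalXAddC (-c)).toMulEquiv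
    (x := S)).2 h
  have h2 : ((Polynomial.algEquivAevalXAddC (-c)).toMulEquiv) S = S.comp (X - C c) := by
    change (Polynomial.algEquivAevalXAddC (-c)) S = _
    rw [Polynomial.algEquivAevalXAddC_apply, Polynomial.comp, Polynomial.aeval_def, C_neg,
      sub_eq_add_neg]
    rfl
  rwa [h2] at h1

lemma irr_of {g : ℕ} {l s : List ℤ} {c : ℤ} (hg : 1 ≤ g) (hl : l.length = g + 1)
    (hs : s.length = g + 1) (hs1 : s.getD g 0 = 1)
    (h3 : ∀ j < g, (3 : ℤ) ∣ s.getD j 0) (h9 : ¬ (9 : ℤ) ∣ s.getD 0 0)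
    (h40 : (shf c s).length ≤ 40) (heq : ∀ j < 40, l.getD j 0 = (shf c s).getD j 0)
    (hl40 : g + 1 ≤ 40) :
    Irreducible ((∑ j ∈ Finset.range (g + 1), C (l.getD j 0) * X ^ j : ℤ[X]).map
      (Int.castRingHom ℚ)) := by
  rw [← toP_eq g l hl]
  have h1 : toP l = (toP s).comp (X - C c) := by
    rw [← toP_shf]
    ext k
    rw [toP_coeff, toP_coeff]
    by_cases hk : k < 40
    · exact heq k hk
    · rw [List.getD_eq_default _ _ (by omega), List.getD_eq_default _ _ (by omega)]
  have hd : (toP s).natDegree = g := by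
    refine natDegree_eq_of_le_of_coeff_ne_zero ?_ ?_
    · rw [natDegree_le_iff_coeff_eq_zero]
      intro N hN
      rw [toP_coeff, List.getD_eq_default _ _ (by omega)]
    · rw [toP_coeff, hs1]
      norm_num
  have hm : (toP s).Monic := by
    rw [Monic, leadingCoeff, hd, toP_coeff, hs1]
  have hpz : Prime (3 : ℤ) := Int.prime_three
  have hE : (toP s).IsEisensteinAt (Ideal.span {(3 : ℤ)}) := by
    refine ⟨?_, ?_, ?_⟩
    · rw [hm.leadingCoeff, Ideal.mem_span_singleton]
      norm_num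
    · intro n hn
      rw [hd] at hn
      rw [Ideal.mem_span_singleton, toP_coeff]
      exact h3 n hn
    · rw [Ideal.span_singleton_pow, Ideal.mem_span_singleton, toP_coeff]
      norm_num
      exact h9
  have hprime : (Ideal.span {(3 : ℤ)}).IsPrime := by
    rw [Ideal.span_singleton_prime hpz.ne_zero]
    exact hpz
  have hirr : Irreducible (toP s) := hE.irreducible hprime hm.isPrimitive (by rw [hd]; omega)
  have hmc : (toP l).Monic := by
    rw [h1]
    exact hm.comp (monic_X_sub_C c) (by rw [natDegree_X_sub_C]; norm_num)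
  have hirr2 : Irreducible (toP l) := by
    rw [h1]
    exact irr_shift c hirr
  exact (Polynomial.IsPrimitive.Int.irreducible_iff_irreducible_map_cast hmc.isPrimitive).1 hirr2

/-- reduction modulo 2 -/
lemma PR_two {g f : ℕ} (hfg : f ≤ g) (r : ℕ → ℤ)
    (h : ∀ j ≤ g, (r j - if g - f ≤ j then (f.choose (j - (g - f)) : ℕ) else 0) % 2 = 0) :
    (PR g r).map (Int.castRingHom (ZMod 2)) = X ^ (2 * g - f) * (X + 1) ^ f := by
  have h1 : (PR g r).map (Int.castRingHom (ZMod 2)) =
      X ^ g * ∑ j ∈ Finset.range (g + 1), C ((r j : ℤ) : ZMod 2) * X ^ j := by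
    rw [PR, Polynomial.map_sum, Finset.mul_sum]
    refine Finset.sum_congr rfl fun j hj => ?_
    have hj' := Finset.mem_range.1 hj
    have h2 : ((2 : (ZMod 2)[X])) = 0 := by
      have : (2 : (ZMod 2)[X]) = C (2 : ZMod 2) := rfl
      rw [this]
      have : (2 : ZMod 2) = 0 := by decide
      rw [this, C_0]
    rw [Polynomial.map_mul, Polynomial.map_mul, Polynomial.map_pow, Polynomial.map_pow, map_C,
      Polynomial.map_add, Polynomial.map_pow, map_X, Polynomial.map_ofNat, h2, add_zero,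
      eq_intCast, ← pow_mul]
    have h3 : X ^ g = (X : (ZMod 2)[X]) ^ (g - j) * X ^ j := by
      rw [← pow_add]
      congr 1
      omega
    rw [h3, two_mul, pow_add]
    ring
  have h4 : (X : (ZMod 2)[X]) ^ (2 * g - f) * (X + 1) ^ f = X ^ g * (X ^ (g - f) * (X + 1) ^ f) := by
    rw [← mul_assoc, ← pow_add]
    congr 2
    omega
  rw [h1, h4]
  congr 1
  ext k
  rw [finsetSum_coeff, coeff_X_pow_mul', coeff_X_add_one_pow]
  simp only [coeff_C_mul_X_pow, Finset.sum_ite_eq, Finset.mem_range]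
  by_cases hk : k < g + 1
  · rw [if_pos hk]
    have h5 := Int.dvd_of_emod_eq_zero (h k (by omega))
    have h6 := (ZMod.intCast_zmod_eq_zero_iff_dvd _ 2).2 (by exact_mod_cast h5)
    split_ifs with h7
    · rw [if_pos h7] at h6
      push_cast at h6
      exact sub_eq_zero.1 h6
    · rw [if_neg h7] at h6
      push_cast at h6
      rwa [sub_zero] at h6
  · rw [if_neg hk, if_pos (by omega), Nat.choose_eq_zero_of_lt (by omega)]
    simp

theorem good_of_chs {g f : ℕ} (hg : 1 ≤ g) (hg40 : g + 1 ≤ 40) (hf : 1 ≤ f) (hfg : f ≤ g) {e : Sm}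
    (hq : e.q.Prime) (h : chs g f e = true) : Good 2 g f := by
  unfold chs at h
  simp only [Bool.and_eq_true, decide_eq_true_eq, List.all_eq_true, List.mem_range] at h
  obtain ⟨⟨⟨⟨⟨⟨⟨⟨⟨hlen, hlast⟩, h2⟩, hpt⟩, hinc⟩, hq4⟩, hqd⟩, hqn⟩, hu⟩, hir⟩ := h
  set r : ℕ → ℤ := fun j => e.r.getD j 0 with hr
  have hrg : r g = 1 := hlast
  have hroot : ∀ x : ℂ, aeval x (PR g r) = 0 → ‖x‖ = Real.sqrt 2 ∧ x.im ≠ 0 := by
    refine Pool.Agent.N277.WT.t_rroot g r
      (fun i => ((e.pts.getD i (0, 1)).1 : ℚ) / ((e.pts.getD i (0, 1)).2 : ℚ)) hg hrg ?_ ?_ ?_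
    · intro i hi
      obtain ⟨⟨h3, h4⟩, -⟩ := hpt i (by omega)
      have h5 : (0 : ℚ) < ((e.pts.getD i (0, 1)).2 : ℚ) := by exact_mod_cast h3
      rw [div_pow, div_lt_iff₀ (by positivity)]
      exact_mod_cast h4
    · intro i hi
      have h3 := (hpt i (by omega)).1.1
      have h4 := (hpt (i + 1) (by omega)).1.1
      have h5 : (0 : ℚ) < ((e.pts.getD i (0, 1)).2 : ℚ) := by exact_mod_cast h3
      have h6 : (0 : ℚ) < ((e.pts.getD (i + 1) (0, 1)).2 : ℚ) := by exact_mod_cast h4
      rw [div_lt_div_iff₀ h5 h6]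
      exact_mod_cast hinc i hi
    · intro i hi
      obtain ⟨⟨h3, -⟩, h4⟩ := hpt i (by omega)
      set n := (e.pts.getD i (0, 1)).1 with hn
      set d := (e.pts.getD i (0, 1)).2 with hd
      have h5 : (0 : ℚ) < (d : ℚ) := by exact_mod_cast h3
      have h6 : ∑ j ∈ Finset.range (g + 1), (r j : ℚ) * ((n : ℚ) / (d : ℚ)) ^ j =
          (hv n d e.r : ℚ) / (d : ℚ) ^ g := by
        rw [hv_eq, hlen, eq_div_iff (by positivity), Finset.sum_mul]
        push_cast
        refine Finset.sum_congr rfl fun j hj => ?_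
        have hj' := Finset.mem_range.1 hj
        have h7 : (d : ℚ) ^ g = (d : ℚ) ^ j * (d : ℚ) ^ (g + 1 - 1 - j) := by
          rw [← pow_add]
          congr 1
          omega
        rw [h7, div_pow, show g + 1 - 1 - j = g - j by omega, hr]
        field_simp
      rw [h6, ← mul_div_assoc]
      refine div_pos ?_ (by positivity)
      exact_mod_cast h4
  have hirrR : Irreducible ((∑ j ∈ Finset.range (g + 1), C (r j) * X ^ j : ℤ[X]).map
      (Int.castRingHom ℚ)) := by
    by_cases hb : e.ir = true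
    · rw [if_pos hb] at hir
      simp only [Bool.and_eq_true, decide_eq_true_eq] at hir
      exact Pool.Agent.N438.WT9.mod3 g r hir.1.1 hir.1.2 hrg hir.2
    · rw [if_neg hb] at hir
      simp only [Bool.and_eq_true, decide_eq_true_eq, List.all_eq_true, List.mem_range] at hir
      obtain ⟨⟨⟨⟨⟨h1, h2⟩, h3⟩, h4⟩, h5⟩, h6⟩ := hir
      exact irr_of hg hlen h1 h2 h3 h4 h5 h6 hg40
  have hirr := Pool.Agent.N92.WT.rirr g r hg hrg hroot hirrR
  have hm := Pool.Agent.N92.WT.monic_PR (g := g) (r := r) hg hrg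
  have hd := Pool.Agent.N92.WT.natDegree_PR (g := g) (r := r) hg hrg
  refine good_of_crit hf hfg hm hd (PR_two hfg r fun j hj => h2 j (by omega)) hirr ?_ hq hq4
    (t := e.t) ?_ ?_ (fun x hx => (hroot x hx).1)
  · intro hc
    apply hu
    have h7 := congrArg (fun p => p.eval e.u) hc
    simp only [eval_comp, eval_neg, eval_X] at h7
    rw [hr, eval_PR g e.r hlen, eval_PR g e.r hlen, neg_sq] at h7
    exact h7.symm
  · rw [hr, eval_PR g e.r hlen]
    exact hqd
  · rw [hr, eval_PR g e.r hlen]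
    exact hqn

end Pool.Agent.N205.WT
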